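import Pool.Agent.Helper784CF.Defs
set_option autoImplicit false
namespace Pool.Agent.Helper784CF

theorem Avg_out {K M : Type} [AddCommGroup K] (U : AddSubgroup K) (f : K → M)
    (hf : ∀ k, ∀ u ∈ U, f (k + u) = f k) (k k' : K) (h : (k : K ⧸ U) = (k' : K ⧸ U)) :
    f k = f k' := by
  rw [QuotientAddGroup.eq] at h
  have h1 := hf k _ h
  rw [add_neg_cancel_left] at h1
  exact h1.symm

theorem Avg_fiber {K : Type} [AddCommGroup K] (q : ℕ) (U V : AddSubgroup K) (hUV : U ≤ V)
    [Fintype (K ⧸ U)] [Fintype (K ⧸ V)] (f : K → ZMod q)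
    (hf : ∀ k, ∀ u ∈ V, f (k + u) = f k) :
    ∑ x : K ⧸ U, f x.out = (U.relIndex V : ZMod q) * ∑ y : K ⧸ V, f y.out := by
  classical
  let e := AddSubgroup.quotientEquivProdOfLE hUV
  have hfin : Finite ((K ⧸ V) × (V ⧸ U.addSubgroupOf V)) := Finite.of_equiv _ e
  have hfin2 : Finite (V ⧸ U.addSubgroupOf V) := Finite.prod_right (K ⧸ V)
  let _ := Fintype.ofFinite (V ⧸ U.addSubgroupOf V)
  have h1 : ∀ x : K ⧸ U, f x.out = f ((e x).1).out := by
    intro x
    apply Avg_out V f hf
    rw [QuotientAddGroup.out_eq']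
    conv_rhs => rw [← QuotientAddGroup.out_eq' x]
    rfl
  rw [Finset.sum_congr rfl (fun x _ => h1 x), e.sum_comp (fun z => f z.1.out),
    Fintype.sum_prod_type]
  simp only [Finset.sum_const, Finset.card_univ, nsmul_eq_mul]
  rw [← Finset.mul_sum]
  congr 1
  rw [AddSubgroup.relIndex, AddSubgroup.index, Nat.card_eq_fintype_card]

theorem Avg_aff {K : Type} [AddCommGroup K] (q : ℕ) (U W : AddSubgroup K) (α : K ≃+ K)
    (hW : ∀ k, k ∈ W ↔ α k ∈ U) (c : K)
    [Fintype (K ⧸ U)] [Fintype (K ⧸ W)] (f : K → ZMod q)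
    (hf : ∀ k, ∀ u ∈ U, f (k + u) = f k) :
    ∑ x : K ⧸ W, f (α x.out + c) = ∑ y : K ⧸ U, f y.out := by
  apply Fintype.sum_bijective (fun x : K ⧸ W => ((α x.out + c : K) : K ⧸ U))
  · constructor
    · intro x y hxy
      simp only at hxy
      rw [QuotientAddGroup.eq] at hxy
      rw [← QuotientAddGroup.out_eq' x, ← QuotientAddGroup.out_eq' y, QuotientAddGroup.eq, hW]
      have h1 : α (-x.out + y.out) = -(α x.out + c) + (α y.out + c) := by
        rw [map_add, map_neg]
        abel
      rw [h1]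
      exact hxy
    · intro y
      refine ⟨((α.symm (y.out - c) : K) : K ⧸ W), ?_⟩
      have h1 : ((((α.symm (y.out - c) : K) : K ⧸ W).out : K) : K ⧸ W) =
          ((α.symm (y.out - c) : K) : K ⧸ W) := QuotientAddGroup.out_eq' _
      rw [QuotientAddGroup.eq, hW] at h1
      simp only
      conv_rhs => rw [← QuotientAddGroup.out_eq' y]
      rw [QuotientAddGroup.eq]
      have h2 : -(α (((α.symm (y.out - c) : K) : K ⧸ W).out) + c) + y.out =
          α (-(((α.symm (y.out - c) : K) : K ⧸ W).out) + α.symm (y.out - c)) := by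
        rw [map_add, map_neg, AddEquiv.apply_symm_apply]
        abel
      rw [h2]
      exact h1
  · intro x
    exact Avg_out U f hf _ _ (by rw [QuotientAddGroup.out_eq'])

theorem specAvg : SpecAvg := by
  classical
  intro K _ q _ ι _ hdiv h α c hU hcon
  choose U hUf hUi using hU
  let W : ι → AddSubgroup K := fun i => (U i).comap (α i).toAddMonoidHom
  have hWm : ∀ i k, k ∈ W i ↔ α i k ∈ U i := fun i k => AddSubgroup.mem_comap
  have hWidx : ∀ i, (W i).index = (U i).index := fun i =>
    AddSubgroup.index_comap_of_surjective _ (α i).surjective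
  have hWf : ∀ i, (W i).FiniteIndex := fun i =>
    ⟨by rw [hWidx i]; exact (hUf i).index_ne_zero⟩
  let V : AddSubgroup K := ⨅ i, (U i ⊓ W i)
  have hVf : V.FiniteIndex := AddSubgroup.finiteIndex_iInf (fun i => by
    have := hUf i
    have := hWf i
    infer_instance)
  have hVU : ∀ i, V ≤ U i := fun i => (iInf_le _ i).trans inf_le_left
  have hVW : ∀ i, V ≤ W i := fun i => (iInf_le _ i).trans inf_le_right
  let : Fintype (K ⧸ V) := Fintype.ofFinite _
  let : ∀ i, Fintype (K ⧸ U i) := fun i => by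
    have := hUf i
    exact Fintype.ofFinite _
  let : ∀ i, Fintype (K ⧸ W i) := fun i => by
    have := hWf i
    exact Fintype.ofFinite _
  have hi : ∀ i, V.relIndex (U i) = V.relIndex (W i) := by
    intro i
    have h1 := AddSubgroup.relIndex_mul_index (hVU i)
    have h2 := AddSubgroup.relIndex_mul_index (hVW i)
    rw [hWidx i] at h2
    exact Nat.eq_of_mul_eq_mul_right (Nat.pos_of_ne_zero (hUf i).index_ne_zero)
      (h1.trans h2.symm)
  have hsum : ∀ i, ∑ x : K ⧸ V, h i x.out = ∑ x : K ⧸ V, h i (α i x.out + c i) := by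
    intro i
    have hinv : ∀ k, ∀ u ∈ W i, (fun k => h i (α i k + c i)) (k + u) =
        (fun k => h i (α i k + c i)) k := by
      intro k u hu
      simp only
      have h1 : α i (k + u) + c i = (α i k + c i) + α i u := by
        rw [map_add]
        abel
      rw [h1]
      exact hUi i _ _ ((hWm i u).mp hu)
    rw [Avg_fiber q V (U i) (hVU i) (h i) (hUi i),
      Avg_fiber q V (W i) (hVW i) (fun k => h i (α i k + c i)) hinv,
      Avg_aff q (U i) (W i) (α i) (hWm i) (c i) (h i) (hUi i), hi i]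
  have h0 : ((Fintype.card (K ⧸ V) : ℕ) : ZMod q) = 0 := by
    calc ((Fintype.card (K ⧸ V) : ℕ) : ZMod q) = ∑ x : K ⧸ V, (1 : ZMod q) := by simp
      _ = ∑ x : K ⧸ V, ∑ i, (h i x.out - h i (α i x.out + c i)) := by simp_rw [hcon]
      _ = ∑ i, (∑ x : K ⧸ V, h i x.out - ∑ x : K ⧸ V, h i (α i x.out + c i)) := by
          rw [Finset.sum_comm]
          simp_rw [Finset.sum_sub_distrib]
      _ = 0 := by
          apply Finset.sum_eq_zero
          intro i _
          rw [hsum i, sub_self]
  have hdvd : q ∣ Nat.card (K ⧸ V) := by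
    rw [Nat.card_eq_fintype_card]
    exact (ZMod.natCast_eq_zero_iff _ _).mp h0
  obtain ⟨x, hx⟩ := exists_prime_addOrderOf_dvd_card' q hdvd
  have hsurj : Function.Surjective (fun y : K ⧸ V => q • y) := by
    intro y
    induction y using QuotientAddGroup.induction_on with
    | H k =>
      obtain ⟨k', hk'⟩ := hdiv k
      refine ⟨(k' : K ⧸ V), ?_⟩
      simp only
      rw [← hk']
      rfl
  have hinj := Finite.injective_iff_surjective.mpr hsurj
  have hx0 : x = 0 := by
    apply hinj
    simp only [smul_zero]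
    rw [← hx]
    exact addOrderOf_nsmul_eq_zero x
  rw [hx0, addOrderOf_zero] at hx
  exact (Fact.out : q.Prime).one_lt.ne hx

end Pool.Agent.Helper784CF
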