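import Pool.Agent.Helper784CF.Defs
import Pool.Agent.H812R3.CantorChar

set_option autoImplicit false

open Set Filter Topology

namespace Pool.Agent.Helper784CF

theorem Cantor_compact {G : Type} [Group G] {V : Type} [TopologicalSpace V] [DiscreteTopology V]
    [Finite V] {X : Set (G → V)} (hX : ShInv X) (hc : IsClosed X) : CompactSpace (Sh V X hX) := by
  have h1 : IsCompact X := hc.isCompact
  exact isCompact_iff_compactSpace.1 h1

theorem Cantor_closed_col {G : Type} [Group G] (m : ℕ) (g : G) :
    IsClosed (colSet m g : Set (G → ZMod m)) := by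
  have h1 : (colSet m g : Set (G → ZMod m)) =
      ⋂ h : G, (fun x : G → ZMod m => (x (h * g), x h)) ⁻¹' {p | p.1 ≠ p.2} := by
    ext x
    simp only [colSet, Set.mem_ofPred_eq, Set.mem_iInter, Set.mem_preimage]
  rw [h1]
  refine isClosed_iInter fun h => IsClosed.preimage ?_ (isClosed_discrete _)
  exact (continuous_apply _).prodMk (continuous_apply _)

theorem Cantor_closed_dv {G : Type} [Group G] (E : Finset G) (p : ℕ) :
    IsClosed (dvSet E p : Set (G → E → ZMod p)) := by
  have h1 : (dvSet E p : Set (G → E → ZMod p)) =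
      ⋂ h : G, (fun x : G → E → ZMod p => (x h, fun e : E => x (h * e.1))) ⁻¹'
        {q : (E → ZMod p) × (E → E → ZMod p) | ∑ e : E, (q.1 e - q.2 e e) = 1} := by
    ext x
    simp only [dvSet, Set.mem_ofPred_eq, Set.mem_iInter, Set.mem_preimage]
  rw [h1]
  refine isClosed_iInter fun h => IsClosed.preimage ?_ (isClosed_discrete _)
  exact (continuous_apply _).prodMk (continuous_pi fun e => continuous_apply _)

theorem Cantor_mm {G : Type} [Group G] {g : G} (hg : g ≠ 1) : 1 < mm g := by
  unfold mm
  split_ifs with h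
  · norm_num
  · have h1 : orderOf g ≠ 1 := fun h2 => hg (orderOf_eq_one_iff.1 h2)
    exact (Nat.minFac_prime h1).one_lt

theorem Cantor_val {G : Type} [Group G] {V : Type} [TopologicalSpace V]
    {X : Set (G → V)} (hX : ShInv X) (h : G) :
    Continuous (fun x : Sh V X hX => x.1 h) :=
  (continuous_apply h).comp continuous_subtype_val

/-- the index set of the coordinates -/
abbrev Cantor_J (G : Type) [Group G] (E : Finset G) (A : Set Nat.Primes) : Type :=
  G ⊕ ((Σ g : {g : G // g ≠ 1}, G × ZMod (mm g.1)) ⊕ (Σ p : A, G × (E → ZMod p.1.1)))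

open Classical in
/-- the coordinates -/
noncomputable def Cantor_e (G : Type) [Group G] (E : Finset G) (A : Set Nat.Primes)
    (z : Tot G E A) : Cantor_J G E A → Bool :=
  Sum.elim (fun h => z.1.1 h)
    (Sum.elim (fun j => decide ((z.2.1 j.1).1 j.2.1 = j.2.2))
      (fun j => decide ((z.2.2 j.1).1 j.2.1 = j.2.2)))

theorem Cantor_e_cont (G : Type) [Group G] (E : Finset G) (A : Set Nat.Primes) :
    Continuous (Cantor_e G E A) := by
  classical
  refine continuous_pi fun j => ?_
  rcases j with h | j | j
  · exact (Cantor_val _ h).comp continuous_fst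
  · have h1 : Continuous fun z : Tot G E A => (z.2.1 j.1).1 j.2.1 :=
      (Cantor_val _ j.2.1).comp ((continuous_apply j.1).comp
        (continuous_fst.comp continuous_snd))
    exact (continuous_of_discreteTopology (f := fun v : ZMod (mm j.1.1) =>
      decide (v = j.2.2))).comp h1
  · have h1 : Continuous fun z : Tot G E A => (z.2.2 j.1).1 j.2.1 :=
      (Cantor_val _ j.2.1).comp ((continuous_apply j.1).comp
        (continuous_snd.comp continuous_snd))
    exact (continuous_of_discreteTopology (f := fun v : E → ZMod j.1.1.1 =>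
      decide (v = j.2.2))).comp h1

theorem Cantor_e_inj (G : Type) [Group G] (E : Finset G) (A : Set Nat.Primes) :
    Function.Injective (Cantor_e G E A) := by
  classical
  intro z z' hz
  refine Prod.ext ?_ (Prod.ext ?_ ?_)
  · apply Subtype.ext
    funext h
    exact congrFun hz (Sum.inl h)
  · funext g
    apply Subtype.ext
    funext h
    have h1 := congrFun hz (Sum.inr (Sum.inl ⟨g, h, (z'.2.1 g).1 h⟩))
    change decide ((z.2.1 g).1 h = (z'.2.1 g).1 h) =
      decide ((z'.2.1 g).1 h = (z'.2.1 g).1 h) at h1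
    rw [decide_eq_true rfl] at h1
    exact of_decide_eq_true h1
  · funext p
    apply Subtype.ext
    funext h
    have h1 := congrFun hz (Sum.inr (Sum.inr ⟨p, h, (z'.2.2 p).1 h⟩))
    change decide ((z.2.2 p).1 h = (z'.2.2 p).1 h) =
      decide ((z'.2.2 p).1 h = (z'.2.2 p).1 h) at h1
    rw [decide_eq_true rfl] at h1
    exact of_decide_eq_true h1

theorem specCantor (hCol : SpecColAff) : SpecCantor := by
  classical
  intro G _ _ _ E A hD
  -- finiteness of the alphabets
  have hp : ∀ p : A, NeZero p.1.1 := fun p => ⟨p.1.2.ne_zero⟩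
  have hf1 : ∀ g : {g : G // g ≠ 1}, Finite (ZMod (mm g.1)) := fun g => inferInstance
  have hf2 : ∀ p : A, Finite (ZMod p.1.1) := fun p => by
    have := hp p
    infer_instance
  have hf3 : ∀ p : A, Finite (E → ZMod p.1.1) := fun p => by
    have := hf2 p
    infer_instance
  -- compactness
  have c1 : CompactSpace (Bern G) := Cantor_compact _ isClosed_univ
  have c2 : ∀ g : {g : G // g ≠ 1}, CompactSpace (Col g.1) := fun g =>
    Cantor_compact _ (Cantor_closed_col _ _)
  have c3 : ∀ p : A, CompactSpace (Dv E p.1.1) := fun p =>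
    Cantor_compact _ (Cantor_closed_dv _ _)
  have c4 : CompactSpace (Tot G E A) := inferInstance
  -- a point
  have n1 : Nonempty (Bern G) := ⟨⟨fun _ => false, Set.mem_univ _⟩⟩
  have n2 : ∀ g : {g : G // g ≠ 1}, Nonempty (Col g.1) := by
    intro g
    obtain ⟨x, hx⟩ := hCol G g.1 g.2
    have : Fact (1 < mm g.1) := ⟨Cantor_mm g.2⟩
    refine ⟨⟨x, fun h => ?_⟩⟩
    rw [hx]
    intro h1
    have h2 : (1 : ZMod (mm g.1)) = 0 := by
      have h3 : x h + 1 = x h + 0 := by rw [h1, add_zero]
      exact add_left_cancel h3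
    exact one_ne_zero h2
  have n3 : ∀ p : A, Nonempty (Dv E p.1.1) := fun p => by
    obtain ⟨x, hx⟩ := hD p.1.1 p.1.2
    exact ⟨⟨x, hx⟩⟩
  have n4 : Nonempty (Tot G E A) := inferInstance
  -- the injection
  have k1 : Countable (Cantor_J G E A) := inferInstance
  have k2 : Nonempty (Cantor_J G E A) := ⟨Sum.inl 1⟩
  obtain ⟨σ, hσ⟩ := exists_surjective_nat (Cantor_J G E A)
  refine Pool.Agent.H812R3.CantorChar.cantor_char
    (fun z => (Cantor_e G E A z) ∘ σ) ?_ ?_ ?_
  · exact continuous_pi fun n => (continuous_apply (σ n)).comp (Cantor_e_cont G E A)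
  · intro z z' h
    exact Cantor_e_inj G E A (hσ.injective_comp_right h)
  · -- no isolated points
    intro z U hU hz
    obtain ⟨φ, hφ⟩ : ∃ φ : (G → Bool) → Tot G E A,
        φ = fun b => ((⟨b, Set.mem_univ _⟩ : Bern G), z.2) := ⟨_, rfl⟩
    have hφc : Continuous φ := by
      rw [hφ]
      exact (Continuous.subtype_mk continuous_id fun _ => Set.mem_univ _).prodMk
        continuous_const
    have hφz : φ z.1.1 = z := by rw [hφ]; rfl
    have hV : IsOpen (φ ⁻¹' U) := hU.preimage hφc
    have hzV : z.1.1 ∈ φ ⁻¹' U := by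
      rw [Set.mem_preimage, hφz]
      exact hz
    obtain ⟨I, u, h1, h2⟩ := isOpen_pi_iff.1 hV z.1.1 hzV
    obtain ⟨h, hh⟩ := Infinite.exists_notMem_finset I
    refine ⟨φ (Function.update z.1.1 h (!(z.1.1 h))), ?_, ?_⟩
    · refine h2 ?_
      intro i hi
      have hih : i ≠ h := fun h3 => hh (h3 ▸ hi)
      rw [Function.update_of_ne hih]
      exact (h1 i hi).2
    · intro h3
      have h4 : (φ (Function.update z.1.1 h (!(z.1.1 h)))).1.1 h = z.1.1 h := by rw [h3]
      rw [hφ] at h4
      change Function.update z.1.1 h (!(z.1.1 h)) h = z.1.1 h at h4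
      rw [Function.update_self] at h4
      exact Bool.not_ne_self _ h4

end Pool.Agent.Helper784CF
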