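import Pool.Agent.Helper784CF.Defs

/-! Affine colourings along an element. -/

set_option autoImplicit false

namespace Pool.Agent.Helper784CF

theorem ColAff_dvd {G : Type} [Group G] (g : G) : mm g ∣ orderOf g := by
  unfold mm
  split_ifs with h
  · rw [h]
    exact dvd_zero _
  · exact Nat.minFac_dvd _

theorem ColAff_exp {G : Type} [Group G] (g h : G) :
    ∃ n : ℤ, g ^ n = ((QuotientGroup.mk h : G ⧸ Subgroup.zpowers g).out)⁻¹ * h := by
  have h1 : (QuotientGroup.mk ((QuotientGroup.mk h : G ⧸ Subgroup.zpowers g).out) :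
      G ⧸ Subgroup.zpowers g) = QuotientGroup.mk h := QuotientGroup.out_eq' _
  rw [QuotientGroup.eq, Subgroup.mem_zpowers_iff] at h1
  exact h1

theorem specColAff : SpecColAff := by
  intro G _ g _
  choose n hn using fun h : G => ColAff_exp g h
  refine ⟨fun h => (n h : ZMod (mm g)), fun h => ?_⟩
  have h1 : (QuotientGroup.mk (h * g) : G ⧸ Subgroup.zpowers g) = QuotientGroup.mk h := by
    rw [eq_comm, QuotientGroup.eq, inv_mul_cancel_left]
    exact Subgroup.mem_zpowers g
  have h2 : g ^ n (h * g) = g ^ (n h + 1) := by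
    rw [hn (h * g), h1, zpow_add_one, hn h, mul_assoc]
  have h3 : n (h * g) ≡ n h + 1 [ZMOD (mm g : ℤ)] := by
    have h4 := zpow_eq_zpow_iff_modEq.1 h2
    exact h4.of_dvd (Int.natCast_dvd_natCast.2 (ColAff_dvd g))
  have h5 := (ZMod.intCast_eq_intCast_iff _ _ _).2 h3
  simp only
  rw [h5]
  push_cast
  ring

end Pool.Agent.Helper784CF
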