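import Pool.Agent.Helper784CF.Defs2

/-! Affine colourings along an element, invariant under a subgroup. -/

set_option autoImplicit false

namespace Pool.Agent.Helper784CF

/-- the double cosets of `D` and the cyclic group generated by `g` -/
def ColInv_setoid {G : Type} [Group G] (D : Subgroup G) (g : G) : Setoid G where
  r h h' := ∃ d ∈ D, ∃ n : ℤ, h' = d * h * g ^ n
  iseqv :=
    { refl := fun h => ⟨1, D.one_mem, 0, by simp⟩
      symm := by
        rintro h h' ⟨d, hd, n, rfl⟩
        exact ⟨d⁻¹, D.inv_mem hd, -n, by group⟩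
      trans := by
        rintro h h' h'' ⟨d, hd, n, rfl⟩ ⟨d', hd', n', rfl⟩
        exact ⟨d' * d, D.mul_mem hd' hd, n + n', by rw [zpow_add]; group⟩ }

theorem ColInv_key {G : Type} [Group G] (D : Subgroup G) (g : G) (q : ℕ) (hq : q.Prime)
    (h0 : orderOf g ≠ 0) (hqg : q ∣ orderOf g) (hD : ∀ d ∈ D, orderOf d ≠ q) (r d d' : G)
    (hd : d ∈ D) (hd' : d' ∈ D) (n n' : ℤ) (h : d * r * g ^ n = d' * r * g ^ n') :
    (n : ZMod q) = n' := by
  by_contra hne
  have h1 : r * g ^ (n - n') * r⁻¹ = d⁻¹ * d' := by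
    have h2 : g ^ n = r⁻¹ * d⁻¹ * d' * r * g ^ n' := by
      have : g ^ n = r⁻¹ * d⁻¹ * (d * r * g ^ n) := by group
      rw [this, h]
      group
    rw [zpow_sub, h2]
    group
  have h3 : orderOf (d⁻¹ * d') = orderOf (g ^ (n - n')) := by
    rw [← h1]
    exact (MulAut.conj r).orderOf_eq (g ^ (n - n'))
  set t := orderOf (g ^ (n - n')) with ht
  have ht0 : t ≠ 0 := by
    have h4 : IsOfFinOrder g := orderOf_pos_iff.1 (Nat.pos_of_ne_zero h0)
    have h5 : IsOfFinOrder (g ^ (n - n')) := h4.zpow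
    exact (orderOf_pos_iff.2 h5).ne'
  have h6 : g ^ ((n - n') * (t : ℤ)) = 1 := by
    rw [zpow_mul, zpow_natCast, ht, pow_orderOf_eq_one]
  have h7 : ((orderOf g : ℕ) : ℤ) ∣ (n - n') * (t : ℤ) := orderOf_dvd_iff_zpow_eq_one.2 h6
  have h8 : (q : ℤ) ∣ (n - n') * (t : ℤ) := (Int.natCast_dvd_natCast.2 hqg).trans h7
  rcases (Nat.prime_iff_prime_int.1 hq).dvd_or_dvd h8 with h9 | h9
  · apply hne
    have h10 := (ZMod.intCast_zmod_eq_zero_iff_dvd (n - n') q).2
      h9
    rw [Int.cast_sub, sub_eq_zero] at h10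
    exact h10
  · have h10 : q ∣ t := Int.natCast_dvd_natCast.1 h9
    have h11 : t / q ∣ t := Nat.div_dvd_of_dvd h10
    have h12 : t / q ≠ 0 := by
      intro h13
      have := Nat.div_mul_cancel h10
      rw [h13, zero_mul] at this
      exact ht0 this.symm
    have h13 : orderOf ((d⁻¹ * d') ^ (t / q)) = q := by
      rw [orderOf_pow_of_dvd h12 (by rw [h3]; exact h11), h3]
      exact Nat.div_div_self h10 ht0
    exact hD _ (D.pow_mem (D.mul_mem (D.inv_mem hd) hd') _) h13

theorem specColInv : SpecColInv := by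
  intro G _ D g q hq h0 hqg hD
  have key : ∀ h : G, ∃ d ∈ D, ∃ n : ℤ,
      h = d * (Quotient.mk (ColInv_setoid D g) h).out * g ^ n := by
    intro h
    have h1 : (ColInv_setoid D g).r (Quotient.mk (ColInv_setoid D g) h).out h :=
      Quotient.mk_out (s := ColInv_setoid D g) h
    exact h1
  choose dd hdd nn hnn using key
  refine ⟨fun h => (nn h : ZMod q), fun h => ?_, fun d hd h => ?_⟩
  · have h1 : (Quotient.mk (ColInv_setoid D g) (h * g)) = Quotient.mk (ColInv_setoid D g) h := by
      apply Quotient.sound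
      exact (ColInv_setoid D g).symm ⟨1, D.one_mem, 1, by simp⟩
    have h2 := hnn (h * g)
    rw [h1] at h2
    have h3 : dd (h * g) * (Quotient.mk (ColInv_setoid D g) h).out * g ^ nn (h * g) =
        dd h * (Quotient.mk (ColInv_setoid D g) h).out * g ^ (nn h + 1) := by
      rw [← h2, zpow_add_one, ← mul_assoc, ← hnn h]
    have h4 := ColInv_key D g q hq h0 hqg hD _ _ _ (hdd (h * g)) (hdd h) _ _ h3
    simp only
    rw [h4]
    push_cast
    ring
  · have h1 : (Quotient.mk (ColInv_setoid D g) (d * h)) = Quotient.mk (ColInv_setoid D g) h := by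
      apply Quotient.sound
      exact (ColInv_setoid D g).symm ⟨d, hd, 0, by simp⟩
    have h2 := hnn (d * h)
    rw [h1] at h2
    have h3 : dd (d * h) * (Quotient.mk (ColInv_setoid D g) h).out * g ^ nn (d * h) =
        (d * dd h) * (Quotient.mk (ColInv_setoid D g) h).out * g ^ nn h := by
      rw [← h2, mul_assoc d, mul_assoc d, ← hnn h]
    exact ColInv_key D g q hq h0 hqg hD _ _ _ (hdd (d * h)) (D.mul_mem hd (hdd h)) _ _ h3

end Pool.Agent.Helper784CF
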