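import Pool.Agent.Helper784CF.Defs
set_option autoImplicit false
namespace Pool.Agent.Helper784CF

theorem Conn_symm {G : Type} [Group G] (E K : Finset G) {a b : G} (h : AdjOff E K a b) :
    AdjOff E K b a := by
  obtain ⟨ha, hb, e, he, h1⟩ := h
  exact ⟨hb, ha, e, he, h1.symm⟩

theorem Conn_rsymm {G : Type} [Group G] (E K : Finset G) {a b : G}
    (h : Relation.ReflTransGen (AdjOff E K) a b) : Relation.ReflTransGen (AdjOff E K) b a := by
  induction h with
  | refl => exact Relation.ReflTransGen.refl
  | tail _ hbc ih => exact Relation.ReflTransGen.head (Conn_symm E K hbc) ih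

theorem Conn_comp_eq {G : Type} [Group G] (E K : Finset G) {x y : G} (h : y ∈ comp E K x) :
    comp E K y = comp E K x := by
  have h' : Relation.ReflTransGen (AdjOff E K) x y := h
  ext z
  constructor
  · intro hz
    have hz' : Relation.ReflTransGen (AdjOff E K) y z := hz
    exact h'.trans hz'
  · intro hz
    have hz' : Relation.ReflTransGen (AdjOff E K) x z := hz
    exact (Conn_rsymm E K h').trans hz'

/-- plain adjacency -/
def Conn_R {G : Type} [Group G] (E : Finset G) (a b : G) : Prop :=
  ∃ e ∈ E, b = a * e ∨ a = b * e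

theorem Conn_Rsymm {G : Type} [Group G] (E : Finset G) {a b : G}
    (h : Relation.ReflTransGen (Conn_R E) a b) : Relation.ReflTransGen (Conn_R E) b a := by
  induction h with
  | refl => exact Relation.ReflTransGen.refl
  | tail _ hbc ih =>
    obtain ⟨e, he, h1⟩ := hbc
    exact Relation.ReflTransGen.head ⟨e, he, h1.symm⟩ ih

theorem Conn_full {G : Type} [Group G] (E : Finset G)
    (hE : Subgroup.closure (E : Set G) = ⊤) (a b : G) :
    Relation.ReflTransGen (Conn_R E) a b := by
  have key : ∀ g ∈ Subgroup.closure (E : Set G), ∀ a : G,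
      Relation.ReflTransGen (Conn_R E) a (a * g) := by
    intro g hg
    induction hg using Subgroup.closure_induction with
    | mem x hx =>
      intro a
      exact Relation.ReflTransGen.single ⟨x, by exact_mod_cast hx, Or.inl rfl⟩
    | one =>
      intro a
      rw [mul_one]
    | mul x y _ _ hx hy =>
      intro a
      rw [← mul_assoc]
      exact (hx a).trans (hy (a * x))
    | inv x _ hx =>
      intro a
      have h1 := hx (a * x⁻¹)
      rw [inv_mul_cancel_right] at h1
      exact Conn_Rsymm E h1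
  have h2 := key (a⁻¹ * b) (by rw [hE]; exact Subgroup.mem_top _) a
  rwa [mul_inv_cancel_left] at h2

theorem Conn_meet {G : Type} [Group G] (E K : Finset G)
    (hE : Subgroup.closure (E : Set G) = ⊤) (y : G) (hy : y ∉ K) (w : G) :
    (w ∉ K ∧ w ∈ comp E K y) ∨
      ∃ z ∈ comp E K y, ∃ k ∈ K, ∃ e ∈ E, z = k * e ∨ z = k * e⁻¹ := by
  induction Conn_full E hE y w with
  | refl => exact Or.inl ⟨hy, Relation.ReflTransGen.refl⟩
  | @tail b c _ hbc ih =>
    rcases ih with ⟨hbK, hb⟩ | h
    · obtain ⟨e, he, h1⟩ := hbc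
      by_cases hcK : c ∈ K
      · refine Or.inr ⟨b, hb, c, hcK, e, he, ?_⟩
        rcases h1 with h1 | h1
        · right
          rw [h1, mul_inv_cancel_right]
        · exact Or.inl h1
      · refine Or.inl ⟨hcK, ?_⟩
        have hb' : Relation.ReflTransGen (AdjOff E K) y b := hb
        exact hb'.tail ⟨hbK, hcK, e, he, h1⟩
    · exact Or.inr h

theorem Conn_fin {G : Type} [Group G] [Infinite G] (E K : Finset G)
    (hE : Subgroup.closure (E : Set G) = ⊤) :
    {x : G | x ∉ K ∧ (comp E K x).Finite}.Finite := by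
  classical
  have hN : ({z : G | ∃ k ∈ K, ∃ e ∈ E, z = k * e ∨ z = k * e⁻¹}).Finite := by
    refine ((K ×ˢ E).image (fun p => p.1 * p.2) ∪
      (K ×ˢ E).image (fun p => p.1 * p.2⁻¹)).finite_toSet.subset ?_
    rintro z ⟨k, hk, e, he, h⟩
    rw [Finset.mem_coe, Finset.mem_union, Finset.mem_image, Finset.mem_image]
    rcases h with h | h
    · exact Or.inl ⟨(k, e), Finset.mem_product.2 ⟨hk, he⟩, h.symm⟩
    · exact Or.inr ⟨(k, e), Finset.mem_product.2 ⟨hk, he⟩, h.symm⟩
  have hU : (⋃ z ∈ {z : G | (∃ k ∈ K, ∃ e ∈ E, z = k * e ∨ z = k * e⁻¹) ∧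
      (comp E K z).Finite}, comp E K z).Finite := by
    refine Set.Finite.biUnion (hN.subset fun z hz => hz.1) fun z hz => hz.2
  refine hU.subset ?_
  rintro y ⟨hy, hfin⟩
  have hnot : ∃ w, w ∉ comp E K y := by
    by_contra hcon
    push Not at hcon
    have : comp E K y = Set.univ := Set.eq_univ_of_forall hcon
    rw [this] at hfin
    exact Set.infinite_univ hfin
  obtain ⟨w, hw⟩ := hnot
  rcases Conn_meet E K hE y hy w with h | ⟨z, hz, hz2⟩
  · exact absurd h.2 hw
  · have h1 := Conn_comp_eq E K hz
    refine Set.mem_biUnion (x := z) ⟨hz2, by rw [h1]; exact hfin⟩ ?_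
    rw [h1]
    exact Relation.ReflTransGen.refl

theorem specConn : SpecConn := by
  classical
  intro G _ E hE hO K
  have : Infinite G := hO.1
  have hF := Conn_fin E K hE
  refine ⟨K ∪ hF.toFinset, Finset.subset_union_left, ?_⟩
  have hnot : ∀ x, x ∉ K ∪ hF.toFinset ↔ x ∉ K ∧ (comp E K x).Infinite := by
    intro x
    rw [Finset.mem_union, Set.Finite.mem_toFinset, Set.mem_ofPred_eq]
    constructor
    · intro h
      push Not at h
      exact ⟨h.1, h.2 h.1⟩
    · rintro ⟨h1, h2⟩ (h | h)
      · exact h1 h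
      · exact h2 h.2
  intro x y hx hy
  have hx' := (hnot x).1 hx
  have hy' := (hnot y).1 hy
  have hxy : Relation.ReflTransGen (AdjOff E K) x y := hO.2 K x y hx'.2 hy'.2
  have key : ∀ z, Relation.ReflTransGen (AdjOff E K) x z →
      Relation.ReflTransGen (AdjOff E (K ∪ hF.toFinset)) x z := by
    intro z hz
    induction hz with
    | refl => exact Relation.ReflTransGen.refl
    | @tail b c hab hbc ih =>
      have hb : b ∉ K ∪ hF.toFinset := by
        rw [hnot]
        refine ⟨hbc.1, ?_⟩
        rw [Conn_comp_eq E K (x := x) (y := b) hab]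
        exact hx'.2
      have hc : c ∉ K ∪ hF.toFinset := by
        rw [hnot]
        refine ⟨hbc.2.1, ?_⟩
        rw [Conn_comp_eq E K (x := x) (y := c) (hab.tail hbc)]
        exact hx'.2
      exact ih.tail ⟨hb, hc, hbc.2.2⟩
  exact key y hxy

end Pool.Agent.Helper784CF
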