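import Pool.Agent.Helper784CF.Defs2

set_option autoImplicit false

namespace Pool.Agent.Helper784CF

theorem Conn2_path {D : Type} [Group D] (E : Finset D)
    (hE : Subgroup.closure (E : Set D) = ⊤) (a b : D) :
    Relation.ReflTransGen (AdjOff E ∅) a b := by
  have hsym : ∀ u v : D, AdjOff E (∅ : Finset D) u v → AdjOff E (∅ : Finset D) v u := by
    rintro u v ⟨hu, hv, e, he, h⟩
    exact ⟨hv, hu, e, he, h.symm⟩
  have hrev : ∀ u v : D, Relation.ReflTransGen (AdjOff E (∅ : Finset D)) u v →
      Relation.ReflTransGen (AdjOff E (∅ : Finset D)) v u := by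
    intro u v huv
    induction huv with
    | refl => exact Relation.ReflTransGen.refl
    | tail _ h2 ih => exact Relation.ReflTransGen.head (hsym _ _ h2) ih
  have key : ∀ g ∈ Subgroup.closure (E : Set D), ∀ a : D,
      Relation.ReflTransGen (AdjOff E (∅ : Finset D)) a (a * g) := by
    intro g hg
    induction hg using Subgroup.closure_induction with
    | mem x hx =>
      intro a
      exact Relation.ReflTransGen.single
        ⟨Finset.notMem_empty _, Finset.notMem_empty _, x, hx, Or.inl rfl⟩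
    | one =>
      intro a
      rw [mul_one]
    | mul x y _ _ hx hy =>
      intro a
      rw [← mul_assoc]
      exact (hx a).trans (hy (a * x))
    | inv x _ hx =>
      intro a
      have h1 := hx (a * x⁻¹)
      rw [inv_mul_cancel_right] at h1
      exact hrev _ _ h1
  have h := key (a⁻¹ * b) (by rw [hE]; exact Subgroup.mem_top _) a
  rwa [mul_inv_cancel_left] at h

theorem Conn2_lift {G : Type} [Group G] {D : Subgroup G} (E : Finset D) {T : Finset G}
    {T' : Finset D} (c : G) (hc : ∀ u : D, u ∉ T' → c * (u : G) ∉ T) {a b : D}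
    (h : Relation.ReflTransGen (AdjOff E T') a b) :
    Relation.ReflTransGen (AdjOff (E.map ⟨Subtype.val, Subtype.val_injective⟩) T)
      (c * (a : G)) (c * (b : G)) := by
  refine Relation.ReflTransGen.lift (fun d : D => c * (d : G)) ?_ _ _ h
  rintro u v ⟨hu, hv, e, he, h⟩
  refine ⟨hc u hu, hc v hv, (e : G), Finset.mem_map.2 ⟨e, he, rfl⟩, ?_⟩
  rcases h with h | h
  · left
    change c * (v : G) = c * (u : G) * (e : G)
    rw [h, Subgroup.coe_mul, mul_assoc]
  · right
    change c * (u : G) = c * (v : G) * (e : G)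
    rw [h, Subgroup.coe_mul, mul_assoc]

theorem Conn2_main {G : Type} [Group G] (D : Subgroup G) (E : Finset D)
    (hE : Subgroup.closure (E : Set D) = ⊤)
    (h : ∀ K : Finset D, ∃ T : Finset D, K ⊆ T ∧
      ∀ x y, x ∉ T → y ∉ T → Relation.ReflTransGen (AdjOff E T) x y) :
    ConnOff (E.map ⟨Subtype.val, Subtype.val_injective⟩) := by
  classical
  intro K
  choose TT hTT1 hTT2 using h
  have hinj : ∀ c : G, Function.Injective (fun d : D => c * (d : G)) := by
    intro c u v huv
    exact Subtype.ext (mul_left_cancel huv)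
  let KK : G → Finset D := fun c => K.preimage (fun d : D => c * (d : G)) (hinj c).injOn
  let rep : G → G := fun x => (QuotientGroup.mk x : G ⧸ D).out
  have hrep : ∀ x, (QuotientGroup.mk (rep x) : G ⧸ D) = QuotientGroup.mk x :=
    fun x => Quotient.out_eq _
  have hrep2 : ∀ x y, (QuotientGroup.mk x : G ⧸ D) = QuotientGroup.mk y → rep x = rep y := by
    intro x y hxy
    simp only [rep, hxy]
  have hrepmem : ∀ x, (rep x)⁻¹ * x ∈ D := fun x => QuotientGroup.eq.1 (hrep x)
  have hmk : ∀ (c : G) (u : D), (QuotientGroup.mk (c * (u : G)) : G ⧸ D) = QuotientGroup.mk c := by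
    intro c u
    refine (QuotientGroup.eq.2 ?_).symm
    rw [inv_mul_cancel_left]
    exact u.2
  let T : Finset G := K ∪ K.biUnion fun k =>
    (TT (KK (rep k))).image fun d : D => rep k * (d : G)
  refine ⟨T, Finset.subset_union_left, ?_⟩
  intro x y hx hy hxy
  have hle : Subgroup.closure ((E.map ⟨Subtype.val, Subtype.val_injective⟩ : Finset G) : Set G)
      ≤ D := by
    rw [Subgroup.closure_le]
    intro z hz
    obtain ⟨e, _, rfl⟩ := Finset.mem_map.1 hz
    exact e.2
  have hxyD : x⁻¹ * y ∈ D := hle hxy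
  have hcy : rep y = rep x := (hrep2 x y (QuotientGroup.eq.2 hxyD)).symm
  -- the two points of the subgroup
  obtain ⟨a, ha⟩ : ∃ a : D, x = rep x * (a : G) := ⟨⟨_, hrepmem x⟩, by simp⟩
  obtain ⟨b, hb⟩ : ∃ b : D, y = rep x * (b : G) :=
    ⟨⟨(rep x)⁻¹ * y, by rw [← hcy]; exact hrepmem y⟩, by simp⟩
  -- points of the same coset in `T`
  have hT : ∀ u : D, rep x * (u : G) ∈ T → (∃ k ∈ K, rep k = rep x) ∧ u ∈ TT (KK (rep x)) := by
    intro u hu
    rcases Finset.mem_union.1 hu with hu | hu
    · refine ⟨⟨_, hu, ?_⟩, ?_⟩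
      · apply hrep2
        rw [hmk, hrep]
      · exact hTT1 _ (Finset.mem_preimage.2 hu)
    · obtain ⟨k, hk, hu⟩ := Finset.mem_biUnion.1 hu
      obtain ⟨d, hd, hdu⟩ := Finset.mem_image.1 hu
      have h1 : rep k = rep x := by
        apply hrep2
        rw [← hrep k, ← hmk (rep k) d, hdu, hmk, hrep]
      refine ⟨⟨k, hk, h1⟩, ?_⟩
      rw [h1] at hd hdu
      rwa [← hinj _ hdu]
  rw [ha, hb]
  by_cases hk : ∃ k ∈ K, rep k = rep x
  · obtain ⟨k, hk, hkx⟩ := hk
    refine Conn2_lift E (T' := TT (KK (rep x))) (rep x) (fun u hu hu' => hu (hT u hu').2) ?_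
    apply hTT2
    · intro hh
      apply hx
      refine Finset.mem_union_right _ (Finset.mem_biUnion.2 ⟨k, hk, ?_⟩)
      rw [hkx]
      exact Finset.mem_image.2 ⟨a, hh, ha.symm⟩
    · intro hh
      apply hy
      refine Finset.mem_union_right _ (Finset.mem_biUnion.2 ⟨k, hk, ?_⟩)
      rw [hkx]
      exact Finset.mem_image.2 ⟨b, hh, hb.symm⟩
  · exact Conn2_lift E (T' := ∅) (rep x) (fun u _ hu' => hk (hT u hu').1) (Conn2_path E hE a b)

theorem specConn2 : SpecConn2 := fun _ _ D E hE h => Conn2_main D E hE h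

end Pool.Agent.Helper784CF
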