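import Pool.Agent.Helper784CF.Defs

/-! Continuous functions on a compact space of configurations depend on finitely many
coordinates. -/

set_option autoImplicit false

namespace Pool.Agent.Helper784CF

theorem specDep : SpecDep := by
  intro X _ _ J V _ _ i hi hinj D _ _ f hf
  have hK : IsClosed {p : X × X | f p.1 ≠ f p.2} := by
    have h1 : Continuous (fun p : X × X => (f p.1, f p.2)) := by fun_prop
    exact (isClosed_discrete {q : D × D | q.1 ≠ q.2}).preimage h1
  have hU : ∀ j, IsOpen {p : X × X | i p.1 j ≠ i p.2 j} := by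
    intro j
    have h1 : Continuous (fun p : X × X => (i p.1 j, i p.2 j)) :=
      ((continuous_apply j).comp (hi.comp continuous_fst)).prodMk
        ((continuous_apply j).comp (hi.comp continuous_snd))
    exact (isOpen_discrete {q : V j × V j | q.1 ≠ q.2}).preimage h1
  have hcov : {p : X × X | f p.1 ≠ f p.2} ⊆ ⋃ j, {p : X × X | i p.1 j ≠ i p.2 j} := by
    intro p hp
    rw [Set.mem_iUnion]
    by_contra hcon
    apply hp
    have h2 : p.1 = p.2 := by
      apply hinj
      funext j
      by_contra hj
      exact hcon ⟨j, hj⟩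
    rw [h2]
  obtain ⟨S, hS⟩ := hK.isCompact.elim_finite_subcover
    (fun j => {p : X × X | i p.1 j ≠ i p.2 j}) hU hcov
  refine ⟨S, fun x y h => ?_⟩
  by_contra hne
  have h3 := hS (show (x, y) ∈ {p : X × X | f p.1 ≠ f p.2} from hne)
  rw [Set.mem_iUnion₂] at h3
  obtain ⟨j, hj, hne'⟩ := h3
  exact hne' (h j hj)

end Pool.Agent.Helper784CF
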