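import Pool.Agent.Helper784CF.Defs2

set_option autoImplicit false

namespace Pool.Agent.Helper784CF

/-- the divergence -/
def DvNe2_D {G : Type} [Group G] (E : Finset G) (p : ℕ) :
    (G → E → ZMod p) →+ (G → ZMod p) where
  toFun x h := ∑ e : E, (x h e - x (h * e.1) e)
  map_zero' := by
    funext h
    simp
  map_add' x y := by
    funext h
    simp only [Pi.add_apply]
    rw [← Finset.sum_add_distrib]
    apply Finset.sum_congr rfl
    intro e _
    ring

theorem DvNe2_D_apply {G : Type} [Group G] (E : Finset G) (p : ℕ) (x : G → E → ZMod p) (h : G) :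
    DvNe2_D E p x h = ∑ e : E, (x h e - x (h * e.1) e) := rfl

open Classical in
/-- unit charges at `a` and `b` are balanced by a field -/
def DvNe2_R {G : Type} [Group G] (E : Finset G) (p : ℕ) (a b : G) : Prop :=
  ∃ x : G → E → ZMod p, ∀ h, DvNe2_D E p x h = (if h = a then 1 else 0) - (if h = b then 1 else 0)

theorem DvNe2_refl {G : Type} [Group G] (E : Finset G) (p : ℕ) (a : G) : DvNe2_R E p a a :=
  ⟨0, fun h => by rw [map_zero]; simp⟩

theorem DvNe2_symm {G : Type} [Group G] {E : Finset G} {p : ℕ} {a b : G} (h : DvNe2_R E p a b) :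
    DvNe2_R E p b a := by
  obtain ⟨x, hx⟩ := h
  refine ⟨-x, fun h => ?_⟩
  rw [map_neg, Pi.neg_apply, hx]
  ring

theorem DvNe2_trans {G : Type} [Group G] {E : Finset G} {p : ℕ} {a b c : G}
    (h : DvNe2_R E p a b) (h' : DvNe2_R E p b c) : DvNe2_R E p a c := by
  obtain ⟨x, hx⟩ := h
  obtain ⟨y, hy⟩ := h'
  refine ⟨x + y, fun h => ?_⟩
  rw [map_add, Pi.add_apply, hx, hy]
  ring

theorem DvNe2_gen {G : Type} [Group G] {E : Finset G} {p : ℕ} (a e : G) (he : e ∈ E) :
    DvNe2_R E p a (a * e⁻¹) := by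
  classical
  refine ⟨fun h f => if h = a ∧ f.1 = e then 1 else 0, fun h => ?_⟩
  rw [DvNe2_D_apply, Finset.sum_eq_single (⟨e, he⟩ : E)]
  · simp only [and_true]
    congr 1
    by_cases h1 : h * e = a
    · rw [if_pos h1, if_pos]
      rw [← h1]; simp
    · rw [if_neg h1, if_neg]
      intro h2
      apply h1
      rw [h2]; simp
  · intro f _ hf
    have hf' : f.1 ≠ e := fun h => hf (Subtype.ext h)
    rw [if_neg (fun h => hf' h.2), if_neg (fun h => hf' h.2), sub_zero]
  · intro h1
    exact absurd (Finset.mem_univ _) h1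

/-- the subgroup of the elements `g` with `a ~ a g` for all `a` -/
def DvNe2_S {G : Type} [Group G] (E : Finset G) (p : ℕ) : Subgroup G where
  carrier := {g | ∀ a, DvNe2_R E p a (a * g)}
  one_mem' := fun a => by rw [mul_one]; exact DvNe2_refl E p a
  mul_mem' := fun {g g'} hg hg' a => by
    have h1 := hg a
    have h2 := hg' (a * g)
    rw [mul_assoc] at h2
    exact DvNe2_trans h1 h2
  inv_mem' := fun {g} hg a => by
    have h1 := hg (a * g⁻¹)
    rw [inv_mul_cancel_right] at h1
    exact DvNe2_symm h1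

theorem DvNe2_all {G : Type} [Group G] {E : Finset G} (p : ℕ) (a b : G)
    (hab : a⁻¹ * b ∈ Subgroup.closure (E : Set G)) : DvNe2_R E p a b := by
  have h1 : Subgroup.closure (E : Set G) ≤ DvNe2_S E p := by
    rw [Subgroup.closure_le]
    intro e he
    have h2 : e⁻¹ ∈ DvNe2_S E p := fun a => DvNe2_gen a e he
    have h3 := (DvNe2_S E p).inv_mem h2
    rwa [inv_inv] at h3
  have h2 : a⁻¹ * b ∈ DvNe2_S E p := h1 hab
  have h3 := h2 a
  rwa [mul_inv_cancel_left] at h3

theorem DvNe2_out {G : Type} [Group G] {D : Subgroup G} (hD : (D : Set G).Infinite)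
    (Ω : Finset G) (v : G) : ∃ w, w ∉ Ω ∧ v⁻¹ * w ∈ D := by
  have h1 : ((fun d => v * d) '' (D : Set G)).Infinite :=
    hD.image (fun a _ b _ h => mul_left_cancel h)
  obtain ⟨w, ⟨d, hd, rfl⟩, hw⟩ := h1.exists_notMem_finset Ω
  refine ⟨v * d, hw, ?_⟩
  rw [inv_mul_cancel_left]
  exact hd

theorem DvNe2_fin {G : Type} [Group G] {E : Finset G}
    (hE : ((Subgroup.closure (E : Set G) : Subgroup G) : Set G).Infinite) (p : ℕ)
    (Ω : Finset G) :
    ∃ x : G → E → ZMod p, ∀ h ∈ Ω, DvNe2_D E p x h = 1 := by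
  classical
  choose w hw hw2 using fun v => DvNe2_out hE Ω v
  have h1 : ∀ v : G, ∃ x : G → E → ZMod p, ∀ h, DvNe2_D E p x h =
      (if h = v then 1 else 0) - (if h = w v then 1 else 0) := fun v => by
    obtain ⟨x, hx⟩ := DvNe2_all p v (w v) (hw2 v)
    exact ⟨x, fun h => by rw [hx h]⟩
  choose x hx using h1
  refine ⟨∑ v ∈ Ω, x v, fun h hh => ?_⟩
  rw [map_sum, Finset.sum_apply]
  have hhw : ∀ v, h ≠ w v := fun v e => hw v (e ▸ hh)
  have h2 : ∀ v ∈ Ω, DvNe2_D E p (x v) h = if h = v then 1 else 0 := by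
    intro v _
    rw [hx, if_neg (hhw v), sub_zero]
  rw [Finset.sum_congr rfl h2, Finset.sum_ite_eq, if_pos hh]

theorem specDvNonempty2 : SpecDvNonempty2 := by
  intro G _ E hE p hp
  have : NeZero p := ⟨hp.ne_zero⟩
  let _ : TopologicalSpace (ZMod p) := ⊥
  have : DiscreteTopology (ZMod p) := ⟨rfl⟩
  have hcont : ∀ h : G, Continuous fun x : G → E → ZMod p => DvNe2_D E p x h := by
    intro h
    simp only [DvNe2_D_apply]
    apply continuous_finsetSum
    intro e _
    have h1 : Continuous fun x : G → E → ZMod p => x h e :=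
      (continuous_apply e).comp (continuous_apply h)
    have h2 : Continuous fun x : G → E → ZMod p => x (h * e.1) e :=
      (continuous_apply e).comp (continuous_apply (h * e.1))
    exact h1.sub h2
  have hne := isCompact_univ.inter_iInter_nonempty
    (fun h : G => {x : G → E → ZMod p | DvNe2_D E p x h = 1})
    (fun h => isClosed_eq (hcont h) continuous_const)
    (fun u => by
      obtain ⟨x, hx⟩ := DvNe2_fin hE p u
      refine ⟨x, Set.mem_univ _, ?_⟩
      simp only [Set.mem_iInter]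
      exact fun h hh => hx h hh)
  obtain ⟨x, -, hx⟩ := hne
  simp only [Set.mem_iInter] at hx
  exact ⟨x, fun h => hx h⟩

end Pool.Agent.Helper784CF
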