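import Pool.Agent.Helper784CF.Defs

set_option autoImplicit false

namespace Pool.Agent.Helper784CF

theorem MergeCol_window {G : Type} [Group G] (J : Finset G) (T : Set G) (hT : T.Finite) :
    ∃ B : Finset G, ∀ γ : G, γ ∉ B → ∀ j ∈ J, γ * j ∉ T := by
  classical
  refine ⟨(hT.toFinset ×ˢ J).image (fun q => q.1 * q.2⁻¹), fun γ hγ j hj hm => hγ ?_⟩
  refine Finset.mem_image.2 ⟨(γ * j, j), Finset.mem_product.2 ⟨hT.mem_toFinset.2 hm, hj⟩, ?_⟩
  simp

/-- the hull of `J` along `g` -/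
def MergeCol_hull {G : Type} [Group G] (g : G) (J : Finset G) : Set G :=
  {h | ∃ n m : ℕ, h * (g ^ n)⁻¹ ∈ J ∧ h * g ^ m ∈ J}

theorem MergeCol_hull_finite {G : Type} [Group G] (g : G) (hg : orderOf g = 0) (J : Finset G) :
    (MergeCol_hull g J).Finite := by
  classical
  have hinj : Function.Injective (fun n : ℕ => g ^ n) := injective_pow_iff_not_isOfFinOrder.2
    (orderOf_eq_zero_iff.1 hg)
  have hK : (⋃ t ∈ J, ⋃ t' ∈ J, {k : ℕ | t * g ^ k = t'}).Finite := by
    refine Set.Finite.biUnion J.finite_toSet fun t _ => ?_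
    refine Set.Finite.biUnion J.finite_toSet fun t' _ => ?_
    refine Set.Subsingleton.finite fun a ha b hb => ?_
    have h1 : t * g ^ a = t' := ha
    have h2 : t * g ^ b = t' := hb
    exact hinj (mul_left_cancel (h1.trans h2.symm))
  obtain ⟨N, hN⟩ := hK.bddAbove
  refine ((J ×ˢ Finset.range (N + 1)).image (fun q => q.1 * g ^ q.2)).finite_toSet.subset ?_
  rintro h ⟨n, m, h1, h2⟩
  have hk : n + m ∈ (⋃ t ∈ J, ⋃ t' ∈ J, {k : ℕ | t * g ^ k = t'}) := by
    refine Set.mem_biUnion h1 (Set.mem_biUnion h2 ?_)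
    show h * (g ^ n)⁻¹ * g ^ (n + m) = h * g ^ m
    rw [pow_add]
    group
  have := hN hk
  refine Finset.mem_coe.2 (Finset.mem_image.2 ⟨(h * (g ^ n)⁻¹, n),
    Finset.mem_product.2 ⟨h1, Finset.mem_range.2 (by omega)⟩, ?_⟩)
  simp

theorem MergeCol_gap {G : Type} [Group G] (g : G) (J : Finset G) (h : G)
    (h1 : h * g⁻¹ ∈ MergeCol_hull g J) (h2 : h * g * g ∈ MergeCol_hull g J) :
    h ∈ MergeCol_hull g J := by
  obtain ⟨n, _, hn, _⟩ := h1
  obtain ⟨_, m, _, hm⟩ := h2
  refine ⟨n + 1, m + 2, ?_, ?_⟩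
  · have : h * (g ^ (n + 1))⁻¹ = h * g⁻¹ * (g ^ n)⁻¹ := by
      rw [pow_succ, mul_inv_rev, mul_assoc]
    rw [this]
    exact hn
  · have : h * g ^ (m + 2) = h * g * g * g ^ m := by
      rw [add_comm, pow_add, pow_two]
      simp only [mul_assoc]
    rw [this]
    exact hm

theorem MergeCol_third (m : ℕ) (hm : m = 3) (a b : ZMod m) : ∃ c : ZMod m, c ≠ a ∧ c ≠ b := by
  subst hm
  revert a b
  decide

theorem MergeCol_infinite {G : Type} [Group G] (g : G) (hg : orderOf g = 0) :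
    Merge (colSet (mm g) g) := by
  classical
  intro J
  have hm : mm g = 3 := by simp [mm, hg]
  choose c hc1 hc2 using MergeCol_third (mm g) hm
  set T := MergeCol_hull g J with hTdef
  have hT : T.Finite := MergeCol_hull_finite g hg J
  have hT' : (T ∪ ((fun h => h * g⁻¹) '' T ∪ (fun h => h * g) '' T)).Finite :=
    hT.union ((hT.image _).union (hT.image _))
  obtain ⟨B, hB⟩ := MergeCol_window J _ hT'
  refine ⟨B, fun γ hγ v hv w hw => ?_⟩
  let y : G → ZMod (mm g) := fun h => if h ∈ T then v h else w h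
  let D : G → Prop := fun h => h ∉ T ∧ (h * g ∈ T ∨ h * g⁻¹ ∈ T)
  let x : G → ZMod (mm g) := fun h => if D h then c (y (h * g)) (y (h * g⁻¹)) else y h
  have hxD : ∀ h, D h → x h = c (y (h * g)) (y (h * g⁻¹)) := fun h hh => if_pos hh
  have hxN : ∀ h, ¬ D h → x h = y h := fun h hh => if_neg hh
  have hyT : ∀ h, h ∈ T → y h = v h := fun h hh => if_pos hh
  have hyN : ∀ h, h ∉ T → y h = w h := fun h hh => if_neg hh
  refine ⟨x, ?_, ?_, ?_⟩
  · intro h
    have hcan : h * g * g⁻¹ = h := by simp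
    by_cases h1 : D h <;> by_cases h2 : D (h * g)
    · exfalso
      obtain ⟨a1, a2⟩ := h1
      obtain ⟨b1, b2⟩ := h2
      have a3 : h * g⁻¹ ∈ T := by
        rcases a2 with a2 | a2
        · exact absurd a2 b1
        · exact a2
      have b3 : h * g * g ∈ T := by
        rcases b2 with b2 | b2
        · exact b2
        · rw [hcan] at b2
          exact absurd b2 a1
      exact a1 (MergeCol_gap g J h a3 b3)
    · rw [hxD h h1, hxN _ h2]
      exact (hc1 _ _).symm
    · rw [hxN h h1, hxD _ h2, hcan]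
      exact hc2 _ _
    · rw [hxN h h1, hxN _ h2]
      by_cases h3 : h ∈ T
      · have h4 : h * g ∈ T := by
          by_contra h4
          exact h2 ⟨h4, Or.inr (by rw [hcan]; exact h3)⟩
        rw [hyT _ h3, hyT _ h4]
        exact hv h
      · have h4 : h * g ∉ T := fun h4 => h1 ⟨h3, Or.inl h4⟩
        rw [hyN _ h3, hyN _ h4]
        exact hw h
  · intro h hh
    have h1 : h ∈ T := ⟨0, 0, by simpa using hh, by simpa using hh⟩
    have h2 : ¬ D h := fun h2 => h2.1 h1
    rw [hxN h h2, hyT h h1]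
  · intro h hh
    have h0 := hB γ hγ h hh
    have h1 : γ * h ∉ T := fun h1 => h0 (Or.inl h1)
    have h2 : ¬ D (γ * h) := by
      rintro ⟨_, h3 | h3⟩
      · exact h0 (Or.inr (Or.inl ⟨_, h3, by simp⟩))
      · exact h0 (Or.inr (Or.inr ⟨_, h3, by simp⟩))
    rw [hxN _ h2, hyN _ h1]

theorem MergeCol_finite {G : Type} [Group G] (g : G) (hg : orderOf g ≠ 0) :
    Merge (colSet (mm g) g) := by
  classical
  intro J
  have hfin : ((Subgroup.zpowers g : Subgroup G) : Set G).Finite := by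
    rw [finite_zpowers]
    by_contra hcon
    exact hg (orderOf_eq_zero_iff.2 hcon)
  set T : Set G := ⋃ j ∈ J, (fun s => j * s) '' ((Subgroup.zpowers g : Subgroup G) : Set G)
    with hTdef
  have hT : T.Finite := Set.Finite.biUnion J.finite_toSet fun j _ => hfin.image _
  have hmem : ∀ h, h ∈ T ↔ ∃ j ∈ J, ∃ s ∈ Subgroup.zpowers g, j * s = h := by
    intro h
    rw [hTdef]
    simp only [Set.mem_iUnion, Set.mem_image, SetLike.mem_coe, exists_prop]
  have hstep : ∀ h, h * g ∈ T ↔ h ∈ T := by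
    intro h
    rw [hmem, hmem]
    constructor
    · rintro ⟨j, hj, s, hs, he⟩
      refine ⟨j, hj, s * g⁻¹, mul_mem hs (inv_mem (Subgroup.mem_zpowers g)), ?_⟩
      rw [← mul_assoc, he]
      simp
    · rintro ⟨j, hj, s, hs, he⟩
      refine ⟨j, hj, s * g, mul_mem hs (Subgroup.mem_zpowers g), ?_⟩
      rw [← mul_assoc, he]
  obtain ⟨B, hB⟩ := MergeCol_window J _ hT
  refine ⟨B, fun γ hγ v hv w hw => ?_⟩
  refine ⟨fun h => if h ∈ T then v h else w h, ?_, ?_, ?_⟩
  · intro h
    show (if h * g ∈ T then v (h * g) else w (h * g)) ≠ if h ∈ T then v h else w h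
    by_cases h1 : h ∈ T
    · rw [if_pos h1, if_pos ((hstep h).2 h1)]
      exact hv h
    · rw [if_neg h1, if_neg (fun h2 => h1 ((hstep h).1 h2))]
      exact hw h
  · intro h hh
    exact if_pos ((hmem h).2 ⟨h, hh, 1, one_mem _, mul_one _⟩)
  · intro h hh
    exact if_neg (hB γ hγ h hh)

theorem specMergeCol : SpecMergeCol := by
  intro G _ g _
  by_cases hg : orderOf g = 0
  · exact MergeCol_infinite g hg
  · exact MergeCol_finite g hg

end Pool.Agent.Helper784CF
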