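import Pool.Agent.Helper784CF.Defs2

set_option autoImplicit false

namespace Pool.Agent.Helper784CF

section MergeDv2_sec

variable {G : Type} [Group G]

/-- the divergence as a linear map -/
def MergeDv2_D (E : Finset G) (R : Type) [CommRing R] : (G → E → R) →ₗ[R] (G → R) where
  toFun x h := ∑ e : E, (x h e - x (h * e.1) e)
  map_add' x y := by
    funext h
    simp only [Pi.add_apply]
    rw [← Finset.sum_add_distrib]
    exact Finset.sum_congr rfl fun e _ => by ring
  map_smul' c x := by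
    funext h
    simp only [Pi.smul_apply, smul_eq_mul, RingHom.id_apply]
    rw [Finset.mul_sum]
    exact Finset.sum_congr rfl fun e _ => by ring

theorem MergeDv2_D_apply {E : Finset G} {R : Type} [CommRing R] (x : G → E → R) (h : G) :
    MergeDv2_D E R x h = ∑ e : E, (x h e - x (h * e.1) e) := rfl

open Classical in
/-- the point mass -/
noncomputable def MergeDv2_pt (R : Type) [CommRing R] (a : G) : G → R := fun h => if h = a then 1 else 0

open Classical in
/-- the field with a single nonzero coordinate -/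
noncomputable def MergeDv2_sg (E : Finset G) (R : Type) [CommRing R] (t : G) (e : E) : G → E → R :=
  fun h e' => if h = t ∧ e' = e then 1 else 0

theorem MergeDv2_D_sg {E : Finset G} {R : Type} [CommRing R] (t : G) (e : E) :
    MergeDv2_D E R (MergeDv2_sg E R t e) = MergeDv2_pt R t - MergeDv2_pt R (t * e.1⁻¹) := by
  classical
  funext h
  rw [MergeDv2_D_apply, Finset.sum_eq_single e]
  · simp only [MergeDv2_sg, MergeDv2_pt, Pi.sub_apply, and_true]
    have : h * e.1 = t ↔ h = t * e.1⁻¹ := by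
      constructor
      · intro h1; rw [← h1]; group
      · intro h1; rw [h1]; group
    simp only [this]
  · intro e' _ he'
    simp [MergeDv2_sg, he']
  · intro h1
    exact absurd (Finset.mem_univ e) h1

/-- `a` and `b` are linked off `T` -/
def MergeDv2_L (E : Finset G) (R : Type) [CommRing R] (T : Finset G) (a b : G) : Prop :=
  ∃ c : G → E → R, {h | c h ≠ 0}.Finite ∧ (∀ t ∈ T, c t = 0) ∧
    MergeDv2_D E R c = MergeDv2_pt R a - MergeDv2_pt R b

theorem MergeDv2_L_refl {E : Finset G} {R : Type} [CommRing R] {T : Finset G} (a : G) :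
    MergeDv2_L E R T a a := by
  refine ⟨0, ?_, fun _ _ => rfl, ?_⟩
  · simp
  · rw [map_zero, sub_self]

theorem MergeDv2_L_symm {E : Finset G} {R : Type} [CommRing R] {T : Finset G} {a b : G}
    (h : MergeDv2_L E R T a b) : MergeDv2_L E R T b a := by
  obtain ⟨c, h1, h2, h3⟩ := h
  refine ⟨-c, ?_, fun t ht => by rw [Pi.neg_apply, h2 t ht, neg_zero], ?_⟩
  · refine h1.subset fun x hx => ?_
    intro h4
    apply hx
    rw [Pi.neg_apply, h4, neg_zero]
  · rw [map_neg, h3, neg_sub]

theorem MergeDv2_L_trans {E : Finset G} {R : Type} [CommRing R] {T : Finset G} {a b d : G}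
    (h : MergeDv2_L E R T a b) (h' : MergeDv2_L E R T b d) : MergeDv2_L E R T a d := by
  obtain ⟨c, h1, h2, h3⟩ := h
  obtain ⟨c', h1', h2', h3'⟩ := h'
  refine ⟨c + c', ?_, fun t ht => by rw [Pi.add_apply, h2 t ht, h2' t ht, add_zero], ?_⟩
  · refine (h1.union h1').subset fun x hx => ?_
    by_contra h4
    simp only [Set.mem_union, Set.mem_ofPred_eq, not_or, not_not] at h4
    apply hx
    rw [Pi.add_apply, h4.1, h4.2, add_zero]
  · rw [map_add, h3, h3', sub_add_sub_cancel]

theorem MergeDv2_L_edge {E : Finset G} {R : Type} [CommRing R] {T : Finset G} {t : G} (ht : t ∉ T)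
    (e : G) (he : e ∈ E) : MergeDv2_L E R T t (t * e⁻¹) := by
  classical
  refine ⟨MergeDv2_sg E R t ⟨e, he⟩, ?_, fun s hs => ?_, MergeDv2_D_sg t ⟨e, he⟩⟩
  · refine (Set.finite_singleton t).subset fun x hx => ?_
    by_contra h4
    apply hx
    funext e'
    have : x ≠ t := h4
    simp [MergeDv2_sg, this]
  · funext e'
    have : s ≠ t := fun h => ht (h ▸ hs)
    simp [MergeDv2_sg, this]

theorem MergeDv2_L_path {E : Finset G} {R : Type} [CommRing R] {T : Finset G} {a b : G}
    (h : Relation.ReflTransGen (AdjOff E T) a b) : MergeDv2_L E R T a b := by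
  induction h with
  | refl => exact MergeDv2_L_refl a
  | tail _ h1 ih =>
    refine MergeDv2_L_trans ih ?_
    obtain ⟨hb, hc, e, he, h2⟩ := h1
    rcases h2 with h2 | h2
    · have := MergeDv2_L_edge (R := R) hc e he
      rw [h2, mul_inv_cancel_right] at this
      rw [h2]
      exact MergeDv2_L_symm this
    · have := MergeDv2_L_edge (R := R) hb e he
      rw [h2, mul_inv_cancel_right] at this
      rw [h2]
      exact this

open Classical in
/-- the boundary points -/
noncomputable def MergeDv2_N (E T : Finset G) : Finset G :=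
  (T ∪ (T ×ˢ E).image (fun p => p.1 * p.2⁻¹)).filter (fun h => h ∉ T ∨ ∃ e ∈ E, h * e ∉ T)

theorem MergeDv2_link {E : Finset G} {R : Type} [CommRing R] {T : Finset G}
    (hT : ∀ x y, x ∉ T → y ∉ T → x⁻¹ * y ∈ Subgroup.closure (E : Set G) →
      Relation.ReflTransGen (AdjOff E T) x y) {a b : G}
    (ha : a ∈ MergeDv2_N E T) (hb : b ∈ MergeDv2_N E T)
    (hab : a⁻¹ * b ∈ Subgroup.closure (E : Set G)) : MergeDv2_L E R T a b := by
  classical
  have key : ∀ x ∈ MergeDv2_N E T, ∃ y, y ∉ T ∧ x⁻¹ * y ∈ Subgroup.closure (E : Set G) ∧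
      MergeDv2_L E R T x y := by
    intro x hx
    unfold MergeDv2_N at hx
    rw [Finset.mem_filter] at hx
    rcases hx.2 with h | ⟨e, he, h⟩
    · refine ⟨x, h, ?_, MergeDv2_L_refl x⟩
      rw [inv_mul_cancel]
      exact Subgroup.one_mem _
    · refine ⟨x * e, h, ?_, ?_⟩
      · rw [inv_mul_cancel_left]
        exact Subgroup.subset_closure he
      · have := MergeDv2_L_edge (R := R) h e he
        rw [mul_inv_cancel_right] at this
        exact MergeDv2_L_symm this
  obtain ⟨a', ha', ha2, h1⟩ := key a ha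
  obtain ⟨b', hb', hb2, h2⟩ := key b hb
  have hab' : a'⁻¹ * b' ∈ Subgroup.closure (E : Set G) := by
    have : a'⁻¹ * b' = (a⁻¹ * a')⁻¹ * (a⁻¹ * b) * (b⁻¹ * b') := by group
    rw [this]
    exact Subgroup.mul_mem _ (Subgroup.mul_mem _ (Subgroup.inv_mem _ ha2) hab) hb2
  exact MergeDv2_L_trans h1 (MergeDv2_L_trans (MergeDv2_L_path (hT a' b' ha' hb' hab')) (MergeDv2_L_symm h2))

open Classical in
/-- restriction of a field to `T` -/
noncomputable def MergeDv2_res {E : Finset G} {R : Type} [CommRing R] (T : Finset G)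
    (y : G → E → R) : G → E → R := fun h e => if h ∈ T then y h e else 0

theorem MergeDv2_res_out {E : Finset G} {R : Type} [CommRing R] {T : Finset G}
    {y : G → E → R} (hy : MergeDv2_D E R y = 0) {h : G} (hh : h ∉ MergeDv2_N E T) :
    MergeDv2_D E R (MergeDv2_res T y) h = 0 := by
  classical
  have h0 : MergeDv2_D E R y h = 0 := by rw [hy]; rfl
  rw [MergeDv2_D_apply] at h0 ⊢
  by_cases h1 : h ∈ T ∧ ∀ e ∈ E, h * e ∈ T
  · rw [← h0]
    refine Finset.sum_congr rfl fun e _ => ?_
    simp only [MergeDv2_res, h1.1, h1.2 e.1 e.2, if_true]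
  · have h2 : h ∉ T ∨ ∃ e ∈ E, h * e ∉ T := by
      by_contra h3
      push Not at h3
      exact h1 h3
    have h3 : h ∉ T ∪ (T ×ˢ E).image (fun p => p.1 * p.2⁻¹) := by
      intro h4
      apply hh
      unfold MergeDv2_N
      rw [Finset.mem_filter]
      exact ⟨h4, h2⟩
    rw [Finset.mem_union, not_or] at h3
    refine Finset.sum_eq_zero fun e _ => ?_
    have h4 : h * e.1 ∉ T := by
      intro h5
      apply h3.2
      rw [Finset.mem_image]
      exact ⟨(h * e.1, e.1), Finset.mem_product.2 ⟨h5, e.2⟩, by simp⟩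
    simp only [MergeDv2_res, h3.1, h4, if_false, sub_zero]

theorem MergeDv2_mk {E : Finset G} (x : G) (e : E) :
    ((x * e.1 : G) : G ⧸ Subgroup.closure (E : Set G)) = (x : G ⧸ Subgroup.closure (E : Set G)) := by
  rw [QuotientGroup.eq]
  have : (x * e.1)⁻¹ * x = (e.1)⁻¹ := by group
  rw [this]
  exact Subgroup.inv_mem _ (Subgroup.subset_closure e.2)

open Classical in
theorem MergeDv2_sum {E : Finset G} {R : Type} [CommRing R] {T : Finset G}
    {y : G → E → R} (hy : MergeDv2_D E R y = 0) (c : G ⧸ Subgroup.closure (E : Set G)) :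
    ∑ h ∈ (MergeDv2_N E T).filter (fun h : G => (h : G ⧸ Subgroup.closure (E : Set G)) = c),
      MergeDv2_D E R (MergeDv2_res T y) h = 0 := by
  set S : Finset G := T ∪ (T ×ˢ E).image (fun p => p.1 * p.2⁻¹) with hS
  set Sc : Finset G := S.filter (fun h : G => (h : G ⧸ Subgroup.closure (E : Set G)) = c) with hSc
  set Tc : Finset G := T.filter (fun h : G => (h : G ⧸ Subgroup.closure (E : Set G)) = c) with hTc
  have h1 : ∑ h ∈ (MergeDv2_N E T).filter (fun h : G => (h : G ⧸ Subgroup.closure (E : Set G)) = c),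
      MergeDv2_D E R (MergeDv2_res T y) h =
      ∑ h ∈ Sc, MergeDv2_D E R (MergeDv2_res T y) h := by
    refine Finset.sum_subset (Finset.filter_subset_filter _ (Finset.filter_subset _ _)) fun x hx1 hx => ?_
    apply MergeDv2_res_out hy
    intro h2
    apply hx
    rw [Finset.mem_filter]
    exact ⟨h2, (Finset.mem_filter.1 hx1).2⟩
  rw [h1]
  simp only [MergeDv2_D_apply]
  rw [Finset.sum_comm]
  refine Finset.sum_eq_zero fun e _ => ?_
  rw [Finset.sum_sub_distrib, sub_eq_zero]
  have h2 : ∑ x ∈ Sc, MergeDv2_res T y x e = ∑ t ∈ Tc, y t e := by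
    symm
    have : ∑ t ∈ Tc, y t e = ∑ t ∈ Tc, MergeDv2_res T y t e :=
      Finset.sum_congr rfl fun t ht => by simp [MergeDv2_res, (Finset.mem_filter.1 ht).1]
    rw [this]
    refine Finset.sum_subset (Finset.filter_subset_filter _ Finset.subset_union_left) fun x hx1 hx => ?_
    have : x ∉ T := fun h => hx (Finset.mem_filter.2 ⟨h, (Finset.mem_filter.1 hx1).2⟩)
    simp [MergeDv2_res, this]
  have h3 : ∑ x ∈ Sc, MergeDv2_res T y (x * e.1) e = ∑ t ∈ Tc, y t e := by
    symm
    have h4 : ∑ t ∈ Tc, y t e = ∑ x ∈ Tc.image (fun t => t * e.1⁻¹), MergeDv2_res T y (x * e.1) e := by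
      rw [Finset.sum_image (fun a _ b _ hab => mul_right_cancel hab)]
      refine Finset.sum_congr rfl fun t ht => ?_
      rw [inv_mul_cancel_right]
      simp [MergeDv2_res, (Finset.mem_filter.1 ht).1]
    rw [h4]
    refine Finset.sum_subset ?_ fun x hx1 hx => ?_
    · intro x hx
      rw [Finset.mem_image] at hx
      obtain ⟨t, ht, rfl⟩ := hx
      rw [hSc, Finset.mem_filter]
      constructor
      · rw [hS, Finset.mem_union]
        right
        rw [Finset.mem_image]
        exact ⟨(t, e.1), Finset.mem_product.2 ⟨(Finset.mem_filter.1 ht).1, e.2⟩, rfl⟩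
      · have h5 := MergeDv2_mk (E := E) (t * e.1⁻¹) e
        rw [inv_mul_cancel_right] at h5
        rw [← h5]
        exact (Finset.mem_filter.1 ht).2
    · have : x * e.1 ∉ T := by
        intro h5
        apply hx
        rw [Finset.mem_image]
        refine ⟨x * e.1, Finset.mem_filter.2 ⟨h5, ?_⟩, mul_inv_cancel_right _ _⟩
        rw [MergeDv2_mk]
        exact (Finset.mem_filter.1 hx1).2
      simp [MergeDv2_res, this]
  rw [h2, h3]

/-- base points of the cosets -/
theorem MergeDv2_base (E T : Finset G) : ∃ b : G ⧸ Subgroup.closure (E : Set G) → G,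
    ∀ h ∈ MergeDv2_N E T, b (h : G ⧸ Subgroup.closure (E : Set G)) ∈ MergeDv2_N E T ∧
      h⁻¹ * b (h : G ⧸ Subgroup.closure (E : Set G)) ∈ Subgroup.closure (E : Set G) := by
  classical
  have key : ∀ c : G ⧸ Subgroup.closure (E : Set G), ∃ x : G,
      (∃ h ∈ MergeDv2_N E T, (h : G ⧸ Subgroup.closure (E : Set G)) = c) →
        x ∈ MergeDv2_N E T ∧ (x : G ⧸ Subgroup.closure (E : Set G)) = c := by
    intro c
    by_cases hc : ∃ h ∈ MergeDv2_N E T, (h : G ⧸ Subgroup.closure (E : Set G)) = c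
    · obtain ⟨h, hh⟩ := hc
      exact ⟨h, fun _ => hh⟩
    · exact ⟨1, fun h => absurd h hc⟩
  choose b hb using key
  refine ⟨b, fun h hh => ?_⟩
  obtain ⟨h1, h2⟩ := hb _ ⟨h, hh, rfl⟩
  exact ⟨h1, QuotientGroup.eq.1 h2.symm⟩

/-- correction -/
theorem MergeDv2_corr (E : Finset G) (R : Type) [CommRing R] (T : Finset G)
    (hT : ∀ x y, x ∉ T → y ∉ T → x⁻¹ * y ∈ Subgroup.closure (E : Set G) →
      Relation.ReflTransGen (AdjOff E T) x y) :
    ∃ P : Finset G, ∀ y : G → E → R, MergeDv2_D E R y = 0 →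
      ∃ c : G → E → R, (∀ t ∈ T, c t = 0) ∧ (∀ h, h ∉ P → c h = 0) ∧
        MergeDv2_D E R c = MergeDv2_D E R (MergeDv2_res T y) := by
  classical
  obtain ⟨b, hb⟩ := MergeDv2_base E T
  have key : ∀ h : G, ∃ c : G → E → R, {h | c h ≠ 0}.Finite ∧ (∀ t ∈ T, c t = 0) ∧
      (h ∈ MergeDv2_N E T → MergeDv2_D E R c = MergeDv2_pt R h -
        MergeDv2_pt R (b (h : G ⧸ Subgroup.closure (E : Set G)))) := by
    intro h
    by_cases hh : h ∈ MergeDv2_N E T
    · obtain ⟨c, h1, h2, h3⟩ := MergeDv2_link (R := R) hT hh (hb h hh).1 (hb h hh).2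
      exact ⟨c, h1, h2, fun _ => h3⟩
    · exact ⟨0, by simp, fun _ _ => rfl, fun h => absurd h hh⟩
  choose C hC1 hC2 hC3 using key
  refine ⟨(MergeDv2_N E T).biUnion (fun h => (hC1 h).toFinset), fun y hy => ?_⟩
  refine ⟨∑ h ∈ MergeDv2_N E T, MergeDv2_D E R (MergeDv2_res T y) h • C h, fun t ht => ?_,
    fun h hh => ?_, ?_⟩
  · rw [Finset.sum_apply]
    refine Finset.sum_eq_zero fun h _ => ?_
    rw [Pi.smul_apply, hC2 h t ht, smul_zero]
  · rw [Finset.sum_apply]
    refine Finset.sum_eq_zero fun g hg => ?_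
    have : C g h = 0 := by
      by_contra h5
      apply hh
      rw [Finset.mem_biUnion]
      exact ⟨g, hg, by rw [Set.Finite.mem_toFinset]; exact h5⟩
    rw [Pi.smul_apply, this, smul_zero]
  · rw [map_sum]
    have h6 : ∀ g ∈ MergeDv2_N E T, MergeDv2_D E R (MergeDv2_D E R (MergeDv2_res T y) g • C g) =
        MergeDv2_D E R (MergeDv2_res T y) g • (MergeDv2_pt R g -
          MergeDv2_pt R (b (g : G ⧸ Subgroup.closure (E : Set G)))) := by
      intro g hg
      rw [map_smul, hC3 g hg]
    rw [Finset.sum_congr rfl h6]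
    simp only [smul_sub]
    rw [Finset.sum_sub_distrib]
    have h8 : ∑ g ∈ MergeDv2_N E T, MergeDv2_D E R (MergeDv2_res T y) g •
        MergeDv2_pt R (b (g : G ⧸ Subgroup.closure (E : Set G))) = 0 := by
      rw [← Finset.sum_fiberwise_of_maps_to (s := MergeDv2_N E T)
        (t := (MergeDv2_N E T).image (fun g : G => (g : G ⧸ Subgroup.closure (E : Set G))))
        (g := fun g : G => (g : G ⧸ Subgroup.closure (E : Set G)))
        (fun g hg => Finset.mem_image_of_mem _ hg)]
      refine Finset.sum_eq_zero fun c _ => ?_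
      have h9 : ∀ g ∈ (MergeDv2_N E T).filter (fun g : G => (g : G ⧸ Subgroup.closure (E : Set G)) = c),
          MergeDv2_D E R (MergeDv2_res T y) g •
            MergeDv2_pt R (b (g : G ⧸ Subgroup.closure (E : Set G))) =
          MergeDv2_D E R (MergeDv2_res T y) g • MergeDv2_pt R (b c) := by
        intro g hg
        rw [(Finset.mem_filter.1 hg).2]
      rw [Finset.sum_congr rfl h9, ← Finset.sum_smul, MergeDv2_sum hy c, zero_smul]
    rw [h8, sub_zero]
    funext x
    rw [Finset.sum_apply]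
    simp only [Pi.smul_apply, MergeDv2_pt, smul_eq_mul, mul_ite, mul_one, mul_zero]
    rw [Finset.sum_ite_eq]
    split_ifs with h7
    · rfl
    · exact (MergeDv2_res_out hy h7).symm

end MergeDv2_sec

theorem specMergeDv2 : SpecMergeDv2 := by
  intro G _ E p hyp J
  classical
  obtain ⟨T, hJT, hT⟩ := hyp J
  obtain ⟨P, hP⟩ := MergeDv2_corr E (ZMod p) T hT
  refine ⟨((T ∪ P) ×ˢ J).image (fun q => q.1 * q.2⁻¹), fun g hg v hv w hw => ?_⟩
  have hDv : ∀ x : G → E → ZMod p, x ∈ dvSet E p ↔ MergeDv2_D E (ZMod p) x = fun _ => 1 := by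
    intro x
    constructor
    · intro hx
      funext h
      exact hx h
    · intro hx h
      exact congrFun hx h
  have hy : MergeDv2_D E (ZMod p) (w - v) = 0 := by
    rw [map_sub, (hDv w).1 hw, (hDv v).1 hv, sub_self]
  obtain ⟨c, hc1, hc2, hc3⟩ := hP (w - v) hy
  refine ⟨v + ((w - v) - MergeDv2_res T (w - v) + c), ?_, ?_, ?_⟩
  · rw [hDv, map_add, map_add, map_sub, hc3, hy, (hDv v).1 hv]
    simp
  · intro h hh
    have h1 : h ∈ T := hJT hh
    funext e
    simp [MergeDv2_res, h1, hc1 h h1]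
  · intro h hh
    have h1 : g * h ∉ T ∪ P := by
      intro h2
      apply hg
      rw [Finset.mem_image]
      exact ⟨(g * h, h), Finset.mem_product.2 ⟨h2, hh⟩, mul_inv_cancel_right _ _⟩
    rw [Finset.mem_union, not_or] at h1
    funext e
    simp [MergeDv2_res, h1.1, hc2 _ h1.2]

end Pool.Agent.Helper784CF

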