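import Pool.Agent.Helper784CF.Defs

/-! Topological mixing of products. -/

set_option autoImplicit false

namespace Pool.Agent.Helper784CF

theorem MixProd_not {G X : Type} [Group G] [TopologicalSpace X] [MulAction G X] {U V : Set X}
    {g : G} (h : g ∉ {g : G | ∀ x ∈ U, g • x ∉ V}) : ∃ x ∈ U, g • x ∈ V := by
  by_contra hcon
  refine h ?_
  intro x hx hgx
  exact hcon ⟨x, hx, hgx⟩

theorem specMixProd : SpecMixProd := by
  intro G _ X Y _ _ _ _ hX hY U V hU hV hUn hVn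
  obtain ⟨⟨a, b⟩, hab⟩ := hUn
  obtain ⟨⟨c, d⟩, hcd⟩ := hVn
  obtain ⟨U1, U2, hU1, hU2, ha, hb, hUU⟩ := isOpen_prod_iff.1 hU a b hab
  obtain ⟨V1, V2, hV1, hV2, hc, hd, hVV⟩ := isOpen_prod_iff.1 hV c d hcd
  refine ((hX U1 V1 hU1 hV1 ⟨a, ha⟩ ⟨c, hc⟩).union (hY U2 V2 hU2 hV2 ⟨b, hb⟩ ⟨d, hd⟩)).subset ?_
  intro g hg
  by_contra hcon
  rw [Set.mem_union, not_or] at hcon
  obtain ⟨x, hx1, hx2⟩ := MixProd_not hcon.1
  obtain ⟨y, hy1, hy2⟩ := MixProd_not hcon.2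
  exact hg (x, y) (hUU ⟨hx1, hy1⟩) (hVV ⟨hx2, hy2⟩)

theorem specMixPi : SpecMixPi := by
  classical
  intro G _ I X _ _ hne hX U V hU hV hUn hVn
  obtain ⟨u, hu⟩ := hUn
  obtain ⟨v, hv⟩ := hVn
  obtain ⟨S, A, hA, hAU⟩ := isOpen_pi_iff.1 hU u hu
  obtain ⟨T, B, hB, hBV⟩ := isOpen_pi_iff.1 hV v hv
  let A' : ∀ i, Set (X i) := fun i => if i ∈ S then A i else Set.univ
  let B' : ∀ i, Set (X i) := fun i => if i ∈ T then B i else Set.univ
  have hA' : ∀ i, IsOpen (A' i) ∧ u i ∈ A' i := by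
    intro i
    by_cases hi : i ∈ S
    · simp only [A', if_pos hi]
      exact hA i hi
    · simp only [A', if_neg hi]
      exact ⟨isOpen_univ, Set.mem_univ _⟩
  have hB' : ∀ i, IsOpen (B' i) ∧ v i ∈ B' i := by
    intro i
    by_cases hi : i ∈ T
    · simp only [B', if_pos hi]
      exact hB i hi
    · simp only [B', if_neg hi]
      exact ⟨isOpen_univ, Set.mem_univ _⟩
  have hfin : (⋃ i ∈ S ∪ T, {g : G | ∀ x ∈ A' i, g • x ∉ B' i}).Finite :=
    Set.Finite.biUnion (Finset.finite_toSet _) fun i _ =>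
      hX i (A' i) (B' i) (hA' i).1 (hB' i).1 ⟨u i, (hA' i).2⟩ ⟨v i, (hB' i).2⟩
  refine hfin.subset ?_
  intro g hg
  by_contra hcon
  have key : ∀ i, ∃ x : X i, i ∈ S ∪ T → x ∈ A' i ∧ g • x ∈ B' i := by
    intro i
    by_cases hi : i ∈ S ∪ T
    · have h1 : g ∉ {g : G | ∀ x ∈ A' i, g • x ∉ B' i} := fun h1 =>
        hcon (Set.mem_biUnion (show i ∈ (↑(S ∪ T) : Set I) from hi) h1)
      obtain ⟨x, hx1, hx2⟩ := MixProd_not h1
      exact ⟨x, fun _ => ⟨hx1, hx2⟩⟩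
    · obtain ⟨x⟩ := hne i
      exact ⟨x, fun h => absurd h hi⟩
  choose x hx using key
  refine hg x (hAU ?_) (hBV ?_)
  · intro i hi
    have := (hx i (Finset.mem_union_left _ hi)).1
    simp only [A', if_pos (show i ∈ S from hi)] at this
    exact this
  · intro i hi
    have := (hx i (Finset.mem_union_right _ hi)).2
    simp only [B', if_pos (show i ∈ T from hi)] at this
    exact this

end Pool.Agent.Helper784CF
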