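import Pool.Agent.Helper784CF.Defs

/-! Merging implies topological mixing for shift flows. -/

set_option autoImplicit false

namespace Pool.Agent.Helper784CF

/-- an open set of a shift flow around a point contains a cylinder over a finite window -/
theorem MixSh_window {G : Type} [Group G] {V : Type} [TopologicalSpace V] [DiscreteTopology V]
    {X : Set (G → V)} {hX : ShInv X} {U : Set (Sh V X hX)} (hU : IsOpen U) (u : Sh V X hX)
    (hu : u ∈ U) : ∃ J : Finset G, ∀ x : Sh V X hX, (∀ h ∈ J, x.1 h = u.1 h) → x ∈ U := by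
  have hU' : ∃ t : Set (G → V), IsOpen t ∧ ∀ x : Sh V X hX, x ∈ U ↔ x.1 ∈ t := by
    obtain ⟨t, ht, htU⟩ := (isOpen_induced_iff (f := (Subtype.val : {x : G → V // x ∈ X} → G → V))
      (s := (U : Set {x : G → V // x ∈ X}))).1 hU
    exact ⟨t, ht, fun x => (Set.ext_iff.1 htU x).symm⟩
  obtain ⟨t, ht, hmem⟩ := hU'
  obtain ⟨J, w, hw, hJ⟩ := isOpen_pi_iff.1 ht u.1 ((hmem u).1 hu)
  refine ⟨J, fun x hx => (hmem x).2 (hJ fun h hh => ?_)⟩
  rw [hx h hh]
  exact (hw h hh).2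

theorem MixSh_main {G : Type} [Group G] {V : Type} [TopologicalSpace V] [DiscreteTopology V]
    {X : Set (G → V)} {hX : ShInv X} (hM : Merge X) {U W : Set (Sh V X hX)} (hU : IsOpen U)
    (hW : IsOpen W) (u v : Sh V X hX) (hu : u ∈ U) (hv : v ∈ W) :
    {g : G | ∀ x ∈ U, g • x ∉ W}.Finite := by
  classical
  obtain ⟨J1, hJ1⟩ := MixSh_window hU u hu
  obtain ⟨J2, hJ2⟩ := MixSh_window hW v hv
  obtain ⟨B, hB⟩ := hM (J1 ∪ J2)
  refine B.finite_toSet.subset fun g hg => ?_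
  by_contra hgB
  obtain ⟨y, hyX, hy1, hy2⟩ := hB g (fun h => hgB (Finset.mem_coe.2 h)) v.1 v.2 (g • u).1 (g • u).2
  let y' : Sh V X hX := ⟨y, hyX⟩
  have hyW : y' ∈ W := hJ2 y' fun h hh => hy1 h (Finset.mem_union_right _ hh)
  have hxU : g⁻¹ • y' ∈ U := by
    refine hJ1 _ fun h hh => ?_
    rw [Sh.smul_val, inv_inv]
    show y (g * h) = u.1 h
    rw [hy2 h (Finset.mem_union_left _ hh), Sh.smul_val, inv_mul_cancel_left]
  refine hg _ hxU ?_
  rw [smul_inv_smul]
  exact hyW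

theorem specMixSh : SpecMixSh := by
  intro G _ V _ _ X hX hM U W hU hW hUn hWn
  exact MixSh_main hM hU hW hUn.some hWn.some hUn.some_mem hWn.some_mem

end Pool.Agent.Helper784CF
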