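import Pool.Agent.Helper784CF.Defs2
set_option autoImplicit false
namespace Pool.Agent.Helper784CF

/-- all coordinates -/
abbrev NotPP2_W (G : Type) [Group G] (E : Finset G) (A : Set Nat.Primes) : Type :=
  ((g : {g : G // g ≠ 1}) → G → ZMod (mm g.1)) × ((p : A) → G → E → ZMod p.1.1)

instance NotPP2_nz (A : Set Nat.Primes) (p : A) : NeZero p.1.1 := ⟨p.1.2.ne_zero⟩

/-- the group of differences -/
def NotPP2_K (G : Type) [Group G] (E : Finset G) (A : Set Nat.Primes) (q : ℕ) :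
    AddSubgroup (NotPP2_W G E A) where
  carrier := {w | (∀ (g : {g : G // g ≠ 1}) (k : G),
      w.1 g (k * g.1) = w.1 g k ∧ (mm g.1 = q → w.1 g k = 0)) ∧
    ∀ (p : A) (k : G), ∑ e : E, (w.2 p k e - w.2 p (k * e.1) e) = 0}
  zero_mem' := ⟨fun _ _ => ⟨rfl, fun _ => rfl⟩, fun _ _ => by simp⟩
  add_mem' := by
    rintro a b ⟨ha, ha'⟩ ⟨hb, hb'⟩
    refine ⟨fun g k => ⟨?_, fun hq => ?_⟩, fun p k => ?_⟩
    · simp [(ha g k).1, (hb g k).1]
    · simp [(ha g k).2 hq, (hb g k).2 hq]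
    · have h1 := ha' p k
      have h2 := hb' p k
      have : ∑ e : E, ((a + b).2 p k e - (a + b).2 p (k * e.1) e) =
          ∑ e : E, (a.2 p k e - a.2 p (k * e.1) e) + ∑ e : E, (b.2 p k e - b.2 p (k * e.1) e) := by
        rw [← Finset.sum_add_distrib]
        refine Finset.sum_congr rfl fun e _ => ?_
        simp only [Prod.snd_add, Pi.add_apply]
        ring
      rw [this, h1, h2, add_zero]
  neg_mem' := by
    rintro a ⟨ha, ha'⟩
    refine ⟨fun g k => ⟨?_, fun hq => ?_⟩, fun p k => ?_⟩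
    · simp [(ha g k).1]
    · simp [(ha g k).2 hq]
    · have h1 := ha' p k
      have : ∑ e : E, ((-a).2 p k e - (-a).2 p (k * e.1) e) =
          - ∑ e : E, (a.2 p k e - a.2 p (k * e.1) e) := by
        rw [← Finset.sum_neg_distrib]
        refine Finset.sum_congr rfl fun e _ => ?_
        simp only [Prod.snd_neg, Pi.neg_apply]
        ring
      rw [this, h1, neg_zero]

variable {G : Type} [Group G] {E : Finset G} {A : Set Nat.Primes} {q₀ : ℕ}

theorem NotPP2_mem {w : NotPP2_W G E A} : w ∈ NotPP2_K G E A q₀ ↔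
    (∀ (g : {g : G // g ≠ 1}) (k : G),
      w.1 g (k * g.1) = w.1 g k ∧ (mm g.1 = q₀ → w.1 g k = 0)) ∧
    ∀ (p : A) (k : G), ∑ e : E, (w.2 p k e - w.2 p (k * e.1) e) = 0 := Iff.rfl

/-- the shift on all coordinates -/
noncomputable def NotPP2_sh (a : G) (w : NotPP2_W G E A) : NotPP2_W G E A :=
  (fun g t => w.1 g (a * t), fun p t => w.2 p (a * t))

theorem NotPP2_sh_mem (a : G) {w : NotPP2_W G E A} (hw : w ∈ NotPP2_K G E A q₀) :
    NotPP2_sh a w ∈ NotPP2_K G E A q₀ := by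
  obtain ⟨h1, h2⟩ := NotPP2_mem.1 hw
  refine NotPP2_mem.2 ⟨fun g k => ⟨?_, fun hq => ?_⟩, fun p k => ?_⟩
  · have := (h1 g (a * k)).1
    simpa [NotPP2_sh, mul_assoc] using this
  · exact (h1 g (a * k)).2 hq
  · have := h2 p (a * k)
    simpa [NotPP2_sh, mul_assoc] using this

/-- the shift as an automorphism of the group of differences -/
noncomputable def NotPP2_al (a : G) : NotPP2_K G E A q₀ ≃+ NotPP2_K G E A q₀ where
  toFun k := ⟨NotPP2_sh a k.1, NotPP2_sh_mem a k.2⟩
  invFun k := ⟨NotPP2_sh a⁻¹ k.1, NotPP2_sh_mem a⁻¹ k.2⟩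
  left_inv k := by
    apply Subtype.ext
    apply Prod.ext
    · funext g t
      simp [NotPP2_sh]
    · funext p t
      simp [NotPP2_sh]
  right_inv k := by
    apply Subtype.ext
    apply Prod.ext
    · funext g t
      simp [NotPP2_sh]
    · funext p t
      simp [NotPP2_sh]
  map_add' k l := rfl

theorem NotPP2_cop (q : Nat.Primes) (g : G) (hg : g ≠ 1) (hmm : mm g ≠ q.1) :
    Nat.Coprime q.1 (mm g) := by
  have hp : (mm g).Prime := by
    unfold mm
    split_ifs with h0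
    · exact Nat.prime_three
    · exact Nat.minFac_prime (fun h => hg (orderOf_eq_one_iff.1 h))
  exact (Nat.coprime_primes q.2 hp).2 (Ne.symm hmm)

theorem NotPP2_div (q : Nat.Primes) (hqA : q ∉ A) (k : NotPP2_K G E A q.1) :
    ∃ k' : NotPP2_K G E A q.1, q.1 • k' = k := by
  obtain ⟨h1, h2⟩ := NotPP2_mem.1 k.2
  refine ⟨⟨(fun g t => (q.1 : ZMod (mm g.1))⁻¹ * k.1.1 g t,
    fun p t e => (q.1 : ZMod p.1.1)⁻¹ * k.1.2 p t e),
      NotPP2_mem.2 ⟨fun g t => ⟨?_, fun hq => ?_⟩, fun p t => ?_⟩⟩, ?_⟩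
  · simp only [(h1 g t).1]
  · simp only [(h1 g t).2 hq, mul_zero]
  · simp only [← mul_sub]
    rw [← Finset.mul_sum, h2 p t, mul_zero]
  · apply Subtype.ext
    apply Prod.ext
    · funext g t
      change q.1 • ((q.1 : ZMod (mm g.1))⁻¹ * k.1.1 g t) = k.1.1 g t
      by_cases hmm : mm g.1 = q.1
      · rw [(h1 g t).2 hmm, mul_zero, smul_zero]
      · have hc := NotPP2_cop q g.1 g.2 hmm
        have := ZMod.coe_mul_inv_eq_one (n := mm g.1) q.1 hc
        rw [nsmul_eq_mul, ← mul_assoc, this, one_mul]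
    · funext p t e
      have hc : Nat.Coprime q.1 p.1.1 := by
        refine (Nat.coprime_primes q.2 p.1.2).2 ?_
        intro h
        apply hqA
        have : q = p.1 := Subtype.ext h
        rw [this]
        exact p.2
      have := ZMod.coe_mul_inv_eq_one (n := p.1.1) q.1 hc
      change q.1 • ((q.1 : ZMod p.1.1)⁻¹ * k.1.2 p t e) = k.1.2 p t e
      rw [nsmul_eq_mul, ← mul_assoc, this, one_mul]

/-- indices of the coordinates -/
abbrev NotPP2_J (G : Type) [Group G] (E : Finset G) (A : Set Nat.Primes) : Type :=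
  ({g : G // g ≠ 1} × G) ⊕ (A × G × E)

/-- the coordinates, as natural numbers -/
noncomputable def NotPP2_i (k : NotPP2_K G E A q₀) (j : NotPP2_J G E A) : ℕ :=
  Sum.elim (fun a => (k.1.1 a.1 a.2).val) (fun a => (k.1.2 a.1 a.2.1 a.2.2).val) j

/-- the vanishing of a coordinate -/
noncomputable def NotPP2_N (j : NotPP2_J G E A) : AddSubgroup (NotPP2_K G E A q₀) :=
  Sum.elim
    (fun a => (AddMonoidHom.mk' (fun k : NotPP2_K G E A q₀ => k.1.1 a.1 a.2) (fun _ _ => rfl)).ker)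
    (fun a => (AddMonoidHom.mk' (fun k : NotPP2_K G E A q₀ => k.1.2 a.1 a.2.1 a.2.2)
      (fun _ _ => rfl)).ker) j

theorem NotPP2_N_fin (j : NotPP2_J G E A) : (NotPP2_N (q₀ := q₀) j).FiniteIndex := by
  rcases j with a | a
  · exact AddSubgroup.finiteIndex_ker _
  · exact AddSubgroup.finiteIndex_ker _

theorem NotPP2_i_add (j : NotPP2_J G E A) (k u : NotPP2_K G E A q₀) (hu : u ∈ NotPP2_N j) :
    NotPP2_i (k + u) j = NotPP2_i k j := by
  rcases j with a | a
  · have h : u.1.1 a.1 a.2 = 0 := hu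
    change ((k.1.1 a.1 a.2) + (u.1.1 a.1 a.2)).val = (k.1.1 a.1 a.2).val
    rw [h, add_zero]
  · have h : u.1.2 a.1 a.2.1 a.2.2 = 0 := hu
    change ((k.1.2 a.1 a.2.1 a.2.2) + (u.1.2 a.1 a.2.1 a.2.2)).val = (k.1.2 a.1 a.2.1 a.2.2).val
    rw [h, add_zero]

theorem NotPP2_i_inj : Function.Injective (NotPP2_i (G := G) (E := E) (A := A) (q₀ := q₀)) := by
  intro k l h
  apply Subtype.ext
  apply Prod.ext
  · funext g t
    have := congrFun h (Sum.inl (g, t))
    exact ZMod.val_injective _ this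
  · funext p t e
    have := congrFun h (Sum.inr (p, t, e))
    exact ZMod.val_injective _ this

theorem NotPP2_i_cont : Continuous (NotPP2_i (G := G) (E := E) (A := A) (q₀ := q₀)) := by
  refine continuous_pi fun j => ?_
  rcases j with a | a
  · have h1 : Continuous (fun k : NotPP2_K G E A q₀ => k.1.1 a.1 a.2) := by fun_prop
    have h2 : Continuous (fun z : ZMod (mm a.1.1) => z.val) := continuous_of_discreteTopology
    exact h2.comp h1
  · have h1 : Continuous (fun k : NotPP2_K G E A q₀ => k.1.2 a.1 a.2.1 a.2.2) := by fun_prop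
    have h2 : Continuous (fun z : ZMod a.1.1.1 => z.val) := continuous_of_discreteTopology
    exact h2.comp h1

theorem NotPP2_closed : IsClosed ((NotPP2_K G E A q₀ : AddSubgroup (NotPP2_W G E A)) :
    Set (NotPP2_W G E A)) := by
  have : ((NotPP2_K G E A q₀ : AddSubgroup (NotPP2_W G E A)) : Set (NotPP2_W G E A)) =
      {w | ∀ (g : {g : G // g ≠ 1}) (k : G),
        w.1 g (k * g.1) = w.1 g k ∧ (mm g.1 = q₀ → w.1 g k = 0)} ∩
      {w | ∀ (p : A) (k : G), ∑ e : E, (w.2 p k e - w.2 p (k * e.1) e) = 0} := by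
    ext w
    exact Iff.rfl
  rw [this]
  refine IsClosed.inter ?_ ?_
  · simp only [Set.ofPred_forall]
    refine isClosed_iInter fun g => isClosed_iInter fun k => ?_
    have hc1 : IsClosed {w : NotPP2_W G E A | w.1 g (k * g.1) = w.1 g k} :=
      isClosed_eq (by fun_prop) (by fun_prop)
    by_cases hmm : mm g.1 = q₀
    · have hc2 : IsClosed {w : NotPP2_W G E A | w.1 g k = 0} :=
        isClosed_eq (by fun_prop) continuous_const
      simpa [hmm, Set.ofPred_and] using hc1.inter hc2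
    · simpa [hmm] using hc1
  · simp only [Set.ofPred_forall]
    refine isClosed_iInter fun p => isClosed_iInter fun k => ?_
    refine isClosed_eq ?_ continuous_const
    refine continuous_finsetSum _ fun e _ => ?_
    have h1 : Continuous (fun w : NotPP2_W G E A => w.2 p k e) := by fun_prop
    have h2 : Continuous (fun w : NotPP2_W G E A => w.2 p (k * e.1) e) := by fun_prop
    have h3 : Continuous (fun z : ZMod p.1.1 × ZMod p.1.1 => z.1 - z.2) :=
      continuous_of_discreteTopology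
    exact h3.comp (h1.prodMk h2)

instance NotPP2_compact : CompactSpace (NotPP2_K G E A q₀) :=
  isCompact_iff_compactSpace.1 NotPP2_closed.isCompact

theorem NotPP2_mm_ne_one (g : G) (hg : g ≠ 1) : mm g ≠ 1 := by
  unfold mm
  split_ifs with h0
  · norm_num
  · have h1 : orderOf g ≠ 1 := by
      intro h
      exact hg (orderOf_eq_one_iff.1 h)
    exact (Nat.minFac_prime h1).ne_one

/-- the affine embedding -/
noncomputable def NotPP2_phi (c0 : (g : {g : G // g ≠ 1}) → G → ZMod (mm g.1))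
    (hc0 : ∀ (g : {g : G // g ≠ 1}) (k : G), c0 g (k * g.1) = c0 g k + 1)
    (s0 : (p : A) → G → E → ZMod p.1.1) (hs0 : ∀ p : A, s0 p ∈ dvSet E p.1.1)
    (k : NotPP2_K G E A q₀) : Tot G E A :=
  (⟨fun _ => false, Set.mem_univ _⟩,
    fun g => ⟨fun t => c0 g t + k.1.1 g t, by
      intro t h
      have h1 := ((NotPP2_mem.1 k.2).1 g t).1
      simp only [hc0 g t, h1] at h
      have h2 : (1 : ZMod (mm g.1)) = 0 := by linear_combination h
      have h3 := NotPP2_mm_ne_one g.1 g.2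
      have : (1 : ℕ) % mm g.1 = 0 := by
        have h4 : ((1 : ℕ) : ZMod (mm g.1)) = 0 := by simpa using h2
        rw [ZMod.natCast_eq_zero_iff] at h4
        exact Nat.mod_eq_zero_of_dvd h4
      exact h3 (Nat.dvd_one.1 (Nat.dvd_of_mod_eq_zero this))⟩,
    fun p => ⟨fun t e => s0 p t e + k.1.2 p t e, by
      intro t
      have h1 := (NotPP2_mem.1 k.2).2 p t
      have h2 := hs0 p t
      have : ∑ e : E, ((s0 p t e + k.1.2 p t e) - (s0 p (t * e.1) e + k.1.2 p (t * e.1) e)) =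
          ∑ e : E, (s0 p t e - s0 p (t * e.1) e) +
          ∑ e : E, (k.1.2 p t e - k.1.2 p (t * e.1) e) := by
        rw [← Finset.sum_add_distrib]
        refine Finset.sum_congr rfl fun e _ => ?_
        ring
      rw [this, h1, h2, add_zero]⟩)

theorem NotPP2_phi_cont (c0 : (g : {g : G // g ≠ 1}) → G → ZMod (mm g.1))
    (hc0 : ∀ (g : {g : G // g ≠ 1}) (k : G), c0 g (k * g.1) = c0 g k + 1)
    (s0 : (p : A) → G → E → ZMod p.1.1) (hs0 : ∀ p : A, s0 p ∈ dvSet E p.1.1) :
    Continuous (NotPP2_phi (q₀ := q₀) c0 hc0 s0 hs0) := by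
  refine Continuous.prodMk continuous_const (Continuous.prodMk ?_ ?_)
  · refine continuous_pi fun g => ?_
    refine Continuous.subtype_mk (f := fun (k : NotPP2_K G E A q₀) (t : G) => c0 g t + k.1.1 g t) ?_ _
    refine continuous_pi fun t => ?_
    have h1 : Continuous (fun k : NotPP2_K G E A q₀ => k.1.1 g t) := by fun_prop
    have h2 : Continuous (fun z : ZMod (mm g.1) => c0 g t + z) := continuous_of_discreteTopology
    exact h2.comp h1
  · refine continuous_pi fun p => ?_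
    refine Continuous.subtype_mk
      (f := fun (k : NotPP2_K G E A q₀) (t : G) (e : E) => s0 p t e + k.1.2 p t e) ?_ _
    refine continuous_pi fun t => continuous_pi fun e => ?_
    have h1 : Continuous (fun k : NotPP2_K G E A q₀ => k.1.2 p t e) := by fun_prop
    have h2 : Continuous (fun z : ZMod p.1.1 => s0 p t e + z) := continuous_of_discreteTopology
    exact h2.comp h1

/-- the translation part of the shift -/
noncomputable def NotPP2_d (c0 : (g : {g : G // g ≠ 1}) → G → ZMod (mm g.1))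
    (hc0 : ∀ (g : {g : G // g ≠ 1}) (k : G), c0 g (k * g.1) = c0 g k + 1)
    (s0 : (p : A) → G → E → ZMod p.1.1) (hs0 : ∀ p : A, s0 p ∈ dvSet E p.1.1) (a : G)
    (ha : ∀ (g : {g : G // g ≠ 1}) (k : G), mm g.1 = q₀ → c0 g (a * k) = c0 g k) :
    NotPP2_K G E A q₀ :=
  ⟨(fun g t => c0 g (a * t) - c0 g t, fun p t e => s0 p (a * t) e - s0 p t e), by
    refine NotPP2_mem.2 ⟨fun g k => ⟨?_, fun hq => ?_⟩, fun p k => ?_⟩
    · simp only [← mul_assoc, hc0]
      ring
    · simp only [ha g k hq, sub_self]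
    · have h1 := hs0 p (a * k)
      have h2 := hs0 p k
      have : ∑ e : E, ((s0 p (a * k) e - s0 p k e) -
          (s0 p (a * (k * e.1)) e - s0 p (k * e.1) e)) =
          ∑ e : E, (s0 p (a * k) e - s0 p (a * k * e.1) e) -
          ∑ e : E, (s0 p k e - s0 p (k * e.1) e) := by
        rw [← Finset.sum_sub_distrib]
        refine Finset.sum_congr rfl fun e _ => ?_
        rw [mul_assoc]
        ring
      change ∑ e : E, ((s0 p (a * k) e - s0 p k e) -
          (s0 p (a * (k * e.1)) e - s0 p (k * e.1) e)) = 0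
      rw [this, h1, h2, sub_self]⟩

theorem NotPP2_smul (c0 : (g : {g : G // g ≠ 1}) → G → ZMod (mm g.1))
    (hc0 : ∀ (g : {g : G // g ≠ 1}) (k : G), c0 g (k * g.1) = c0 g k + 1)
    (s0 : (p : A) → G → E → ZMod p.1.1) (hs0 : ∀ p : A, s0 p ∈ dvSet E p.1.1) (a : G)
    (ha : ∀ (g : {g : G // g ≠ 1}) (k : G), mm g.1 = q₀ → c0 g (a * k) = c0 g k)
    (k : NotPP2_K G E A q₀) :
    a⁻¹ • NotPP2_phi c0 hc0 s0 hs0 k =
      NotPP2_phi c0 hc0 s0 hs0 (NotPP2_al a k + NotPP2_d c0 hc0 s0 hs0 a ha) := by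
  refine Prod.ext ?_ (Prod.ext ?_ ?_)
  · apply Subtype.ext
    funext t
    rfl
  · funext g
    apply Subtype.ext
    funext t
    change c0 g (a⁻¹⁻¹ * t) + k.1.1 g (a⁻¹⁻¹ * t) =
      c0 g t + (k.1.1 g (a * t) + (c0 g (a * t) - c0 g t))
    rw [inv_inv]
    ring
  · funext p
    apply Subtype.ext
    funext t e
    change s0 p (a⁻¹⁻¹ * t) e + k.1.2 p (a⁻¹⁻¹ * t) e =
      s0 p t e + (k.1.2 p (a * t) e + (s0 p (a * t) e - s0 p t e))
    rw [inv_inv]
    ring

/-- the base colourings -/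
theorem NotPP2_base (hCol : SpecColAff) (hInv : SpecColInv) (q : Nat.Primes) (hq3 : q.1 ≠ 3)
    (hord : ∀ g ∈ Subgroup.closure (E : Set G), orderOf g ≠ q.1) (g : {g : G // g ≠ 1}) :
    ∃ x : G → ZMod (mm g.1), (∀ h, x (h * g.1) = x h + 1) ∧
      (mm g.1 = q.1 → ∀ d ∈ Subgroup.closure (E : Set G), ∀ h, x (d * h) = x h) := by
  by_cases hmm : mm g.1 = q.1
  · have h0 : orderOf g.1 ≠ 0 := by
      intro h0
      apply hq3
      rw [← hmm, mm, if_pos h0]
    have hdvd : mm g.1 ∣ orderOf g.1 := by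
      unfold mm
      rw [if_neg h0]
      exact Nat.minFac_dvd _
    obtain ⟨x, hx1, hx2⟩ := hInv G (Subgroup.closure (E : Set G)) g.1 (mm g.1)
      (by rw [hmm]; exact q.2) h0 hdvd (by intro d hd; rw [hmm]; exact hord d hd)
    exact ⟨x, hx1, fun _ => hx2⟩
  · obtain ⟨x, hx⟩ := hCol G g.1 g.2
    exact ⟨x, hx, fun h => absurd h hmm⟩

theorem specNotPP2 (hAvg : SpecAvg) (hDep : SpecDep) (hCol : SpecColAff) (hInv : SpecColInv) :
    SpecNotPP2 := by
  intro G _ E A q hqA hq3 hord hdv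
  rintro ⟨h, hcont, hsum⟩
  choose c0 hc0 hc0' using NotPP2_base hCol hInv q hq3 hord
  let s0 : (p : A) → G → E → ZMod p.1.1 := fun p => (hdv p.1.1 p.1.2).some
  have hs0 : ∀ p : A, s0 p ∈ dvSet E p.1.1 := fun p => (hdv p.1.1 p.1.2).some_mem
  have hE : ∀ (e : E) (g : {g : G // g ≠ 1}) (k : G), mm g.1 = q.1 → c0 g (e.1 * k) = c0 g k :=
    fun e g k hq => hc0' g hq e.1 (Subgroup.subset_closure e.2) k
  have : Fact q.1.Prime := ⟨q.2⟩
  refine hAvg (NotPP2_K G E A q.1) q.1 E (NotPP2_div q hqA)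
    (fun e k => h (NotPP2_phi c0 hc0 s0 hs0 k) e) (fun e => NotPP2_al e.1)
    (fun e => NotPP2_d c0 hc0 s0 hs0 e.1 (hE e)) ?_ ?_
  · intro e
    have hf : Continuous (fun k : NotPP2_K G E A q.1 => h (NotPP2_phi c0 hc0 s0 hs0 k) e) :=
      (continuous_apply e).comp (hcont.comp (NotPP2_phi_cont c0 hc0 s0 hs0))
    obtain ⟨S, hS⟩ := hDep (NotPP2_K G E A q.1) (NotPP2_J G E A) (fun _ => ℕ) NotPP2_i
      NotPP2_i_cont NotPP2_i_inj (ZMod q.1) _ hf
    refine ⟨⨅ j : S, NotPP2_N j.1, AddSubgroup.finiteIndex_iInf fun j => NotPP2_N_fin j.1, ?_⟩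
    intro k u hu
    refine hS _ _ fun j hj => ?_
    exact NotPP2_i_add j k u (AddSubgroup.mem_iInf.1 hu ⟨j, hj⟩)
  · intro k
    have := hsum (NotPP2_phi c0 hc0 s0 hs0 k)
    rw [← this]
    refine Finset.sum_congr rfl fun e _ => ?_
    rw [NotPP2_smul]

end Pool.Agent.Helper784CF
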