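import Pool.Agent.Helper784CF.Fin
import Pool.Agent.Helper784CF.NotPP2
import Pool.Agent.Helper784CF.MergeDv2
import Pool.Agent.Helper784CF.Conn
import Pool.Agent.Helper784CF.Conn2
import Pool.Agent.Helper784CF.MergeCol
import Pool.Agent.Helper784CF.DvNe2
import Pool.Agent.Helper784CF.MixSh
import Pool.Agent.Helper784CF.MixProd
import Pool.Agent.Helper784CF.Dep
import Pool.Agent.Helper784CF.ColAff
import Pool.Agent.Helper784CF.Cantor
import Pool.Agent.Helper784CF.Avg
import Pool.Agent.Helper784CF.ColInv

/-! Assembly: a continuum of pairwise non weakly contained free (mixing) Cantor flows for every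
countable group with a finitely generated infinite subgroup that misses infinitely many primes as
orders of elements. -/

set_option autoImplicit false

namespace Pool.Agent.Helper784CF

theorem closure_map_val {G : Type} [Group G] (D : Subgroup G) (E : Finset D)
    (hE : Subgroup.closure (E : Set D) = ⊤) :
    Subgroup.closure ((E.map ⟨Subtype.val, Subtype.val_injective⟩ : Finset G) : Set G) = D := by
  have h1 : ((E.map ⟨Subtype.val, Subtype.val_injective⟩ : Finset G) : Set G) =
      D.subtype '' (E : Set D) := by
    ext x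
    simp
  rw [h1, ← MonoidHom.map_closure, hE, ← MonoidHom.range_eq_map, Subgroup.range_subtype]

theorem mainAll {G : Type} [Group G] [Countable G] (E : Finset G)
    (hinf : ((Subgroup.closure (E : Set G) : Subgroup G) : Set G).Infinite)
    (hq : {q : ℕ | q.Prime ∧ ∀ d ∈ Subgroup.closure (E : Set G), orderOf d ≠ q}.Infinite) :
    ∃ (a : ℝ → (G →* ((ℕ → Bool) ≃ₜ (ℕ → Bool)))) (A : ℝ → Set Nat.Primes),
      (∀ r, ∀ g : G, g ≠ 1 → ∀ x, a r g x ≠ x) ∧ (ConnOff E → ∀ r, MixA (a r)) ∧
      (∀ r, ∀ p ∈ A r, PA E p.1 (a r)) ∧ ∀ r s, (∀ p ∈ A r, PA E p.1 (a s)) → r = s :=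
  main (specNotPP2 specAvg specDep specColAff specColInv) (specCantor specColAff)
    specDvNonempty2 specColAff specMergeCol specMergeDv2 specMixSh specMixProd specMixPi E hinf hq

end Pool.Agent.Helper784CF
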