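import Pool.Agent.Helper784CF.Defs

set_option autoImplicit false

open scoped Classical

namespace Pool.Agent.Helper784CF

variable {G : Type} [Group G]

instance (V : Type) [TopologicalSpace V] (X : Set (G → V)) (hX : ShInv X) :
    ContinuousConstSMul G (Sh V X hX) where
  continuous_const_smul g := by
    have h1 : Continuous fun x : Sh V X hX => fun h : G => x.1 (g⁻¹ * h) :=
      continuous_pi fun h => (continuous_apply _).comp continuous_subtype_val
    exact h1.subtype_mk _

/-- transport of an action to the Cantor space -/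
noncomputable def conjAct {X : Type} [TopologicalSpace X] [MulAction G X]
    [ContinuousConstSMul G X] (φ : X ≃ₜ (ℕ → Bool)) : G →* ((ℕ → Bool) ≃ₜ (ℕ → Bool)) where
  toFun g := (φ.symm.trans (Homeomorph.smul g)).trans φ
  map_one' := by
    apply Homeomorph.ext
    intro x
    simp
  map_mul' a b := by
    apply Homeomorph.ext
    intro x
    simp [mul_smul]

theorem conjAct_apply {X : Type} [TopologicalSpace X] [MulAction G X]
    [ContinuousConstSMul G X] (φ : X ≃ₜ (ℕ → Bool)) (g : G) (x : ℕ → Bool) :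
    conjAct φ g x = φ (g • φ.symm x) := rfl

/-- a flow on the Cantor space has a continuous field with divergence one -/
def PA (E : Finset G) (p : ℕ) (a : G →* ((ℕ → Bool) ≃ₜ (ℕ → Bool))) : Prop :=
  ∃ h : (ℕ → Bool) → E → ZMod p, Continuous h ∧
    ∀ x, ∑ e : E, (h x e - h (a (e.1)⁻¹ x) e) = 1

theorem PA_iff {X : Type} [TopologicalSpace X] [MulAction G X]
    [ContinuousConstSMul G X] (φ : X ≃ₜ (ℕ → Bool)) (E : Finset G) (p : ℕ) :
    PA E p (conjAct φ) ↔ PP E p X := by
  constructor
  · rintro ⟨h, hc, hs⟩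
    refine ⟨fun x => h (φ x), hc.comp φ.continuous, fun x => ?_⟩
    have := hs (φ x)
    simp only [conjAct_apply, Homeomorph.symm_apply_apply] at this
    exact this
  · rintro ⟨h, hc, hs⟩
    refine ⟨fun x => h (φ.symm x), hc.comp φ.symm.continuous, fun x => ?_⟩
    have := hs (φ.symm x)
    simp only [conjAct_apply, Homeomorph.symm_apply_apply]
    exact this

theorem tot_free (E : Finset G) (A : Set Nat.Primes) (g : G) (hg : g ≠ 1) (x : Tot G E A) :
    g • x ≠ x := by
  intro h
  have h1 : (g • x).2.1 ⟨g, hg⟩ = x.2.1 ⟨g, hg⟩ := by rw [h]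
  have h2 : (x.2.1 ⟨g, hg⟩).1 (g⁻¹ * 1) = (x.2.1 ⟨g, hg⟩).1 1 := by
    have := congrArg (fun y => y.1 1) h1
    exact this
  have h3 := (x.2.1 ⟨g, hg⟩).2 g⁻¹
  simp only [inv_mul_cancel, mul_one] at h2 h3
  exact h3 h2.symm

theorem tot_PP (E : Finset G) (A : Set Nat.Primes) (p : Nat.Primes) (hp : p ∈ A) :
    PP E p.1 (Tot G E A) := by
  refine ⟨fun x => (x.2.2 ⟨p, hp⟩).1 1, ?_, fun x => ?_⟩
  · have h1 : Continuous fun x : Tot G E A => x.2.2 ⟨p, hp⟩ :=
      (continuous_apply _).comp (continuous_snd.comp continuous_snd)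
    exact (continuous_apply (1 : G)).comp (continuous_subtype_val.comp h1)
  · have h2 := (x.2.2 ⟨p, hp⟩).2 1
    have h3 : ∀ e : E, ((((e.1)⁻¹ • x).2.2 ⟨p, hp⟩).1 1) = (x.2.2 ⟨p, hp⟩).1 (1 * e.1) := by
      intro e
      change (x.2.2 ⟨p, hp⟩).1 (((e.1)⁻¹)⁻¹ * 1) = _
      simp
    simp only [h3]
    exact h2

theorem countable_of_closure (E : Finset G) (hE : Subgroup.closure (E : Set G) = ⊤) :
    Countable G := by
  have h1 : Countable (FreeGroup E) := by
    unfold FreeGroup
    infer_instance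
  have h2 : Function.Surjective (FreeGroup.lift (fun e : E => e.1)) := by
    rw [← MonoidHom.range_eq_top, FreeGroup.range_lift_eq_closure]
    rw [← hE]
    congr 1
    ext x
    simp
  exact h2.countable

/-- continuum many subsets, pairwise not included in each other, of an infinite set of primes -/
theorem exists_family (Q : Set Nat.Primes) (hQ : Q.Infinite) :
    ∃ A : ℝ → Set Nat.Primes, (∀ r, A r ⊆ Q) ∧ ∀ r s, A r ⊆ A s → r = s := by
  have := hQ.to_subtype
  let ν : ℕ ↪ Q := Infinite.natEmbedding Q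
  have hcard : Cardinal.mk ℝ = Cardinal.mk (Set ℕ) := by
    rw [Cardinal.mk_real, Cardinal.mk_set_nat]
  obtain ⟨j⟩ := Cardinal.eq.1 hcard
  refine ⟨fun r => {p | ∃ n, (n ∈ j r ∧ (ν (2 * n) : Nat.Primes) = p) ∨
    (n ∉ j r ∧ (ν (2 * n + 1) : Nat.Primes) = p)}, ?_, ?_⟩
  · rintro r p ⟨n, ⟨-, h⟩ | ⟨-, h⟩⟩
    · rw [← h]; exact (ν _).2
    · rw [← h]; exact (ν _).2
  · intro r s hrs
    apply j.injective
    have hinj : ∀ a b : ℕ, (ν a : Nat.Primes) = ν b → a = b := fun a b hab =>
      ν.injective (Subtype.ext hab)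
    ext n
    constructor
    · intro hn
      obtain ⟨m, ⟨hm, h⟩ | ⟨hm, h⟩⟩ := hrs ⟨n, Or.inl ⟨hn, rfl⟩⟩
      · have := hinj _ _ h
        have : m = n := by omega
        rw [← this]; exact hm
      · have := hinj _ _ h
        omega
    · intro hn
      by_contra hcon
      obtain ⟨m, ⟨hm, h⟩ | ⟨hm, h⟩⟩ := hrs ⟨n, Or.inr ⟨hcon, rfl⟩⟩
      · have := hinj _ _ h
        omega
      · have := hinj _ _ h
        have : m = n := by omega
        rw [← this] at hn
        exact hm hn

end Pool.Agent.Helper784CF
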