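import Mathlib

/-! Flows used for the width of the weak containment order: shift flows of a group `G` acting by
`(g • x) h = x (g⁻¹ * h)`. -/

set_option autoImplicit false

namespace Pool.Agent.Helper784CF

variable {G : Type} [Group G]

/-- a shift-invariant set of configurations (right constraints only) -/
def ShInv {V : Type} (X : Set (G → V)) : Prop := ∀ x ∈ X, ∀ g : G, (fun h => x (g⁻¹ * h)) ∈ X

/-- proper colourings with `m` colours along right multiplication by `g` -/
def colSet (m : ℕ) (g : G) : Set (G → ZMod m) := {x | ∀ h, x (h * g) ≠ x h}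

/-- fields on the edges `(h, h * e)`, `e ∈ E`, with values in `ZMod p` and divergence `1` -/
def dvSet (E : Finset G) (p : ℕ) : Set (G → E → ZMod p) :=
  {x | ∀ h, ∑ e : E, (x h e - x (h * e.1) e) = 1}

theorem colSet_shInv (m : ℕ) (g : G) : ShInv (colSet m g) := by
  intro x hx a h
  have := hx (a⁻¹ * h)
  rw [mul_assoc] at this
  exact this

theorem dvSet_shInv (E : Finset G) (p : ℕ) : ShInv (dvSet E p) := by
  intro x hx a h
  have := hx (a⁻¹ * h)
  simp only [mul_assoc] at this ⊢
  exact this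

/-- the flow of an invariant set of configurations -/
def Sh (V : Type) (X : Set (G → V)) (_ : ShInv X) : Type := {x : G → V // x ∈ X}

instance (V : Type) [TopologicalSpace V] (X : Set (G → V)) (hX : ShInv X) :
    TopologicalSpace (Sh V X hX) :=
  inferInstanceAs (TopologicalSpace {x : G → V // x ∈ X})

instance (V : Type) (X : Set (G → V)) (hX : ShInv X) : MulAction G (Sh V X hX) where
  smul g x := ⟨fun h => x.1 (g⁻¹ * h), hX x.1 x.2 g⟩
  one_smul x := by
    apply Subtype.ext
    funext h
    change x.1 (1⁻¹ * h) = x.1 h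
    simp
  mul_smul a b x := by
    apply Subtype.ext
    funext h
    change x.1 ((a * b)⁻¹ * h) = x.1 (b⁻¹ * (a⁻¹ * h))
    simp [mul_assoc]

theorem Sh.smul_val {V : Type} {X : Set (G → V)} {hX : ShInv X} (g : G) (x : Sh V X hX) (h : G) :
    (g • x).1 h = x.1 (g⁻¹ * h) := rfl

/-- number of colours: `3` along elements of infinite order, else the least prime factor of the
order -/
noncomputable def mm (g : G) : ℕ := if orderOf g = 0 then 3 else (orderOf g).minFac

theorem mm_pos (g : G) : 0 < mm g := by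
  unfold mm
  split_ifs
  · norm_num
  · exact Nat.minFac_pos _

instance (g : G) : NeZero (mm g) := ⟨(mm_pos g).ne'⟩

/-- the flow of colourings along `g` -/
abbrev Col (g : G) : Type := Sh (ZMod (mm g)) (colSet (mm g) g) (colSet_shInv (mm g) g)

/-- the flow of fields with divergence one -/
abbrev Dv (E : Finset G) (p : ℕ) : Type := Sh (E → ZMod p) (dvSet E p) (dvSet_shInv E p)

theorem univ_shInv (G : Type) [Group G] : ShInv (Set.univ : Set (G → Bool)) :=
  fun _ _ _ => Set.mem_univ _

/-- the Bernoulli flow -/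
abbrev Bern (G : Type) [Group G] : Type :=
  Sh (G := G) Bool (Set.univ : Set (G → Bool)) (univ_shInv G)

/-- the flow attached to a finite set `E` and a set `A` of primes -/
abbrev Tot (G : Type) [Group G] (E : Finset G) (A : Set Nat.Primes) : Type :=
  Bern G × ((g : {g : G // g ≠ 1}) → Col g.1) × ((p : A) → Dv E p.1.1)

/-- a flow has a continuous field with divergence one -/
def PP (E : Finset G) (p : ℕ) (X : Type) [TopologicalSpace X] [MulAction G X] : Prop :=
  ∃ h : X → E → ZMod p, Continuous h ∧ ∀ x, ∑ e : E, (h x e - h ((e.1)⁻¹ • x) e) = 1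

/-- topological mixing -/
def Mix (G : Type) [Group G] (X : Type) [TopologicalSpace X] [MulAction G X] : Prop :=
  ∀ U V : Set X, IsOpen U → IsOpen V → U.Nonempty → V.Nonempty →
    {g : G | ∀ x ∈ U, g • x ∉ V}.Finite

/-- merging far apart windows -/
def Merge {V : Type} (X : Set (G → V)) : Prop :=
  ∀ J : Finset G, ∃ B : Finset G, ∀ g : G, g ∉ B → ∀ v ∈ X, ∀ w ∈ X, ∃ x ∈ X,
    (∀ h ∈ J, x h = v h) ∧ ∀ h ∈ J, x (g * h) = w (g * h)

/-- adjacency in the Cayley graph, off a finite set `K` -/
def AdjOff (E K : Finset G) (a b : G) : Prop :=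
  a ∉ K ∧ b ∉ K ∧ ∃ e ∈ E, b = a * e ∨ a = b * e

/-- the component of `x` in the complement of `K` -/
def comp (E K : Finset G) (x : G) : Set G := {y | Relation.ReflTransGen (AdjOff E K) x y}

/-- one-endedness with respect to a finite set `E`: off every finite set there is exactly one
infinite component -/
def OneEndedWrt (E : Finset G) : Prop :=
  Infinite G ∧ ∀ (K : Finset G) (x y : G), (comp E K x).Infinite → (comp E K y).Infinite →
    y ∈ comp E K x

/-! ### The statements proved in the other files -/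

def SpecAvg : Prop := ∀ (K : Type) [AddCommGroup K] (q : ℕ) [Fact q.Prime] (ι : Type) [Fintype ι]
  (_ : ∀ k : K, ∃ k' : K, q • k' = k)
  (h : ι → K → ZMod q) (α : ι → K ≃+ K) (c : ι → K)
  (_ : ∀ i, ∃ U : AddSubgroup K, U.FiniteIndex ∧ ∀ k, ∀ u ∈ U, h i (k + u) = h i k),
  ¬ ∀ k, ∑ i, (h i k - h i (α i k + c i)) = 1

def SpecDep : Prop := ∀ (X : Type) [TopologicalSpace X] [CompactSpace X] (J : Type)
  (V : J → Type) [∀ j, TopologicalSpace (V j)] [∀ j, DiscreteTopology (V j)]
  (i : X → ∀ j, V j) (_ : Continuous i) (_ : Function.Injective i)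
  (D : Type) [TopologicalSpace D] [DiscreteTopology D] (f : X → D) (_ : Continuous f),
  ∃ S : Finset J, ∀ x y, (∀ j ∈ S, i x j = i y j) → f x = f y

def SpecColAff : Prop := ∀ (G : Type) [Group G] (g : G), g ≠ 1 →
  ∃ x : G → ZMod (mm g), ∀ h, x (h * g) = x h + 1

def SpecDvNonempty : Prop := ∀ (G : Type) [Group G] [Infinite G] (E : Finset G),
  Subgroup.closure (E : Set G) = ⊤ → ∀ p : ℕ, p.Prime → (dvSet E p).Nonempty

def SpecMergeCol : Prop := ∀ (G : Type) [Group G] (g : G), g ≠ 1 → Merge (colSet (mm g) g)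

def SpecConn : Prop := ∀ (G : Type) [Group G] (E : Finset G),
  Subgroup.closure (E : Set G) = ⊤ → OneEndedWrt E → ∀ K : Finset G, ∃ T : Finset G, K ⊆ T ∧
    ∀ x y, x ∉ T → y ∉ T → Relation.ReflTransGen (AdjOff E T) x y

def SpecMergeDv : Prop := ∀ (G : Type) [Group G] (E : Finset G) (p : ℕ),
  (∀ K : Finset G, ∃ T : Finset G, K ⊆ T ∧
    ∀ x y, x ∉ T → y ∉ T → Relation.ReflTransGen (AdjOff E T) x y) → Merge (dvSet E p)

def SpecMixSh : Prop := ∀ (G : Type) [Group G] (V : Type) [TopologicalSpace V]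
  [DiscreteTopology V] (X : Set (G → V)) (hX : ShInv X), Merge X → Mix G (Sh V X hX)

def SpecMixProd : Prop := ∀ (G : Type) [Group G] (X Y : Type) [TopologicalSpace X]
  [TopologicalSpace Y] [MulAction G X] [MulAction G Y], Mix G X → Mix G Y → Mix G (X × Y)

def SpecMixPi : Prop := ∀ (G : Type) [Group G] (I : Type) (X : I → Type)
  [∀ i, TopologicalSpace (X i)] [∀ i, MulAction G (X i)] (_ : ∀ i, Nonempty (X i)),
  (∀ i, Mix G (X i)) → Mix G (∀ i, X i)

def SpecNotPP : Prop := ∀ (G : Type) [Group G] (E : Finset G) (A : Set Nat.Primes)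
  (q : Nat.Primes), q ∉ A → q.1 ≠ 3 → (∀ g : G, orderOf g ≠ q.1) →
  (∀ p : ℕ, p.Prime → (dvSet E p).Nonempty) → ¬ PP E q.1 (Tot G E A)

def SpecCantor : Prop := ∀ (G : Type) [Group G] [Infinite G] [Countable G] (E : Finset G)
  (A : Set Nat.Primes), (∀ p : ℕ, p.Prime → (dvSet E p).Nonempty) →
  Nonempty (Tot G E A ≃ₜ (ℕ → Bool))

end Pool.Agent.Helper784CF
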