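import Pool.Agent.Helper784CF.Defs

/-! Relative versions: the finite set `E` generates a subgroup. -/

set_option autoImplicit false

namespace Pool.Agent.Helper784CF

/-- off `T`, points of the same left coset of the subgroup generated by `E` are connected -/
def ConnOff {G : Type} [Group G] (E : Finset G) : Prop := ∀ K : Finset G, ∃ T : Finset G, K ⊆ T ∧
    ∀ x y, x ∉ T → y ∉ T → x⁻¹ * y ∈ Subgroup.closure (E : Set G) →
      Relation.ReflTransGen (AdjOff E T) x y

def SpecDvNonempty2 : Prop := ∀ (G : Type) [Group G] (E : Finset G),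
  ((Subgroup.closure (E : Set G) : Subgroup G) : Set G).Infinite →
    ∀ p : ℕ, p.Prime → (dvSet E p).Nonempty

def SpecConn2 : Prop := ∀ (G : Type) [Group G] (D : Subgroup G) (E : Finset D),
  Subgroup.closure (E : Set D) = ⊤ →
  (∀ K : Finset D, ∃ T : Finset D, K ⊆ T ∧
    ∀ x y, x ∉ T → y ∉ T → Relation.ReflTransGen (AdjOff E T) x y) →
  ConnOff (E.map ⟨Subtype.val, Subtype.val_injective⟩)

def SpecMergeDv2 : Prop := ∀ (G : Type) [Group G] (E : Finset G) (p : ℕ),
  ConnOff E → Merge (dvSet E p)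

def SpecColInv : Prop := ∀ (G : Type) [Group G] (D : Subgroup G) (g : G) (q : ℕ), q.Prime →
  orderOf g ≠ 0 → q ∣ orderOf g → (∀ d ∈ D, orderOf d ≠ q) →
  ∃ x : G → ZMod q, (∀ h, x (h * g) = x h + 1) ∧ ∀ d ∈ D, ∀ h, x (d * h) = x h

def SpecNotPP2 : Prop := ∀ (G : Type) [Group G] (E : Finset G) (A : Set Nat.Primes)
  (q : Nat.Primes), q ∉ A → q.1 ≠ 3 →
  (∀ g ∈ Subgroup.closure (E : Set G), orderOf g ≠ q.1) →
  (∀ p : ℕ, p.Prime → (dvSet E p).Nonempty) → ¬ PP E q.1 (Tot G E A)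

end Pool.Agent.Helper784CF
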