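import Pool.Agent.Helper784CF.Defs2
import Pool.Agent.Helper784CF.Asm

set_option autoImplicit false

open scoped Classical

namespace Pool.Agent.Helper784CF

variable {G : Type} [Group G]

theorem merge_univ : Merge (Set.univ : Set (G → Bool)) := by
  intro J
  refine ⟨(J ×ˢ J).image fun p => p.1 * p.2⁻¹, fun g hg v _ w _ => ?_⟩
  refine ⟨fun h => if h ∈ J then v h else w h, Set.mem_univ _, fun h hh => by simp [hh], ?_⟩
  intro h hh
  have h1 : g * h ∉ J := by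
    intro hgh
    apply hg
    rw [Finset.mem_image]
    exact ⟨(g * h, h), Finset.mem_product.2 ⟨hgh, hh⟩, by simp⟩
  simp [h1]

/-- topological mixing of a flow on the Cantor space -/
def MixA (a : G →* ((ℕ → Bool) ≃ₜ (ℕ → Bool))) : Prop :=
  ∀ U V : Set (ℕ → Bool), IsOpen U → IsOpen V → U.Nonempty → V.Nonempty →
    {g : G | (a g '' U) ∩ V = ∅}.Finite

theorem MixA_conj {X : Type} [TopologicalSpace X] [MulAction G X]
    [ContinuousConstSMul G X] (φ : X ≃ₜ (ℕ → Bool)) (h : Mix G X) : MixA (conjAct (G := G) φ) := by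
  intro U V hU hV hUn hVn
  obtain ⟨u, hu⟩ := hUn
  obtain ⟨v, hv⟩ := hVn
  refine (h (φ ⁻¹' U) (φ ⁻¹' V) (hU.preimage φ.continuous) (hV.preimage φ.continuous)
    ⟨φ.symm u, by simpa using hu⟩ ⟨φ.symm v, by simpa using hv⟩).subset ?_
  intro g hg x hx hgx
  have : (conjAct φ g (φ x)) ∈ (conjAct (G := G) φ g '' U) ∩ V :=
    ⟨⟨φ x, hx, rfl⟩, by rw [conjAct_apply, Homeomorph.symm_apply_apply]; exact hgx⟩
  rw [hg] at this
  exact this

theorem two_le_mm (g : G) (hg : g ≠ 1) : 2 ≤ mm g := by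
  unfold mm
  split_ifs with h
  · norm_num
  · exact (Nat.minFac_prime (by rwa [Ne, orderOf_eq_one_iff])).two_le

theorem col_nonempty (hCol : SpecColAff) (g : {g : G // g ≠ 1}) : Nonempty (Col g.1) := by
  obtain ⟨x, hx⟩ := hCol G g.1 g.2
  refine ⟨⟨x, fun h => ?_⟩⟩
  rw [hx h]
  have : Nontrivial (ZMod (mm g.1)) := ZMod.nontrivial_iff.2 (by have := two_le_mm g.1 g.2; omega)
  simp

theorem mix_tot (hCol : SpecColAff) (hMC : SpecMergeCol) (hMD : SpecMergeDv2) (hSh : SpecMixSh)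
    (hPr : SpecMixProd) (hPi : SpecMixPi) (E : Finset G) (A : Set Nat.Primes)
    (hdv : ∀ p : ℕ, p.Prime → (dvSet E p).Nonempty) (hE : ConnOff E) : Mix G (Tot G E A) := by
  have h1 : Mix G (Bern G) := hSh G Bool Set.univ (univ_shInv G) merge_univ
  have h2 : Mix G ((g : {g : G // g ≠ 1}) → Col g.1) :=
    hPi G _ _ (col_nonempty hCol) fun g => hSh G _ _ _ (hMC G g.1 g.2)
  have h3 : Mix G ((p : A) → Dv E p.1.1) :=
    hPi G _ _ (fun p => (hdv p.1.1 p.1.2).to_subtype) fun p => hSh G _ _ _ (hMD G E p.1.1 hE)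
  exact hPr G _ _ h1 (hPr G _ _ h2 h3)

theorem main (hNP : SpecNotPP2) (hCa : SpecCantor) (hDN : SpecDvNonempty2)
    (hCol : SpecColAff) (hMC : SpecMergeCol) (hMD : SpecMergeDv2) (hSh : SpecMixSh)
    (hPr : SpecMixProd) (hPi : SpecMixPi) [Countable G] (E : Finset G)
    (hinf : ((Subgroup.closure (E : Set G) : Subgroup G) : Set G).Infinite)
    (hq : {q : ℕ | q.Prime ∧ ∀ d ∈ Subgroup.closure (E : Set G), orderOf d ≠ q}.Infinite) :
    ∃ (a : ℝ → (G →* ((ℕ → Bool) ≃ₜ (ℕ → Bool)))) (A : ℝ → Set Nat.Primes),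
      (∀ r, ∀ g : G, g ≠ 1 → ∀ x, a r g x ≠ x) ∧ (ConnOff E → ∀ r, MixA (a r)) ∧
      (∀ r, ∀ p ∈ A r, PA E p.1 (a r)) ∧ ∀ r s, (∀ p ∈ A r, PA E p.1 (a s)) → r = s := by
  have hG : Infinite G := Set.infinite_univ_iff.1 (hinf.mono (Set.subset_univ _))
  let Q : Set Nat.Primes := {q | q.1 ≠ 3 ∧ ∀ d ∈ Subgroup.closure (E : Set G), orderOf d ≠ q.1}
  have hQ : Q.Infinite := by
    have h1 : (Subtype.val '' Q : Set ℕ).Infinite := by
      refine (hq.diff (Set.finite_singleton 3)).mono ?_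
      rintro q ⟨⟨hqp, hq1⟩, hq3⟩
      exact ⟨⟨q, hqp⟩, ⟨hq3, hq1⟩, rfl⟩
    exact Set.Infinite.of_image _ h1
  obtain ⟨A, hAQ, hA⟩ := exists_family Q hQ
  have hdv := hDN G E hinf
  have hφ : ∀ r, Nonempty (Tot G E (A r) ≃ₜ (ℕ → Bool)) := fun r => hCa G E (A r) hdv
  let φ : ∀ r, Tot G E (A r) ≃ₜ (ℕ → Bool) := fun r => (hφ r).some
  refine ⟨fun r => conjAct (φ r), A, ?_, ?_, ?_, ?_⟩
  · intro r g hg x hx
    rw [conjAct_apply] at hx
    apply tot_free E (A r) g hg ((φ r).symm x)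
    apply (φ r).injective
    rw [hx, Homeomorph.apply_symm_apply]
  · intro hE r
    exact MixA_conj (φ r) (mix_tot hCol hMC hMD hSh hPr hPi E (A r) hdv hE)
  · intro r p hp
    rw [PA_iff]
    exact tot_PP E (A r) p hp
  · intro r s h
    apply hA
    intro p hp
    by_contra hcon
    have h1 := h p hp
    rw [PA_iff] at h1
    have h2 := hAQ r hp
    exact hNP G E (A s) p hcon h2.1 h2.2 hdv h1

end Pool.Agent.Helper784CF
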